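import Pool.Agent.U801.CT.Zig

/-!
# The paths of cosets: an even number of layers
-/

set_option autoImplicit false

namespace Pool.Agent.U801.CT

open Pool.Agent.N47.CG

variable {G : Type*} [Group G] {H : Subgroup G} {s : G}

theorem NN_le_closure (hc : Cen H s) {E : Set G} (hE : E ⊆ H) (hgen : H ≤ Subgroup.closure E) :
    NN hc ≤ Subgroup.closure (cm s '' E) := by
  rintro _ ⟨h, hh, rfl⟩
  have hcl : Subgroup.closure E ≤ H := (Subgroup.closure_le H).2 hE
  have hh' := hgen hh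
  induction hh' using Subgroup.closure_induction with
  | mem x hx => exact Subgroup.subset_closure ⟨x, hx, rfl⟩
  | one => rw [cm_one]; exact Subgroup.one_mem _
  | mul x y hx hy ihx ihy =>
    rw [cm_mul hc (hcl hx) (hcl hy)]
    exact Subgroup.mul_mem _ (ihx (hcl hx)) (ihy (hcl hy))
  | inv x hx ih =>
    rw [cm_inv hc (hcl hx)]
    exact Subgroup.inv_mem _ (ih (hcl hx))

/-- a sequence through the cosets of `L` in the group of the commutators -/
theorem trans_seq [Finite G] (hc : Cen H s) {L : Subgroup G} (hL : L ≤ NN hc) {E : Set G}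
    (hE : E ⊆ H) (hgen : H ≤ Subgroup.closure E) (hne : E.Nonempty) :
    ∃ (r : ℕ) (P ε : ℕ → G), 0 < r ∧ P 0 = 1 ∧ (∀ i, ε i ∈ E) ∧
      (∀ i, i + 1 < r → P (i + 1) = P i * cm s (ε i)) ∧
      (∀ i < r, ∀ j < r, (P i)⁻¹ * P j ∈ L → i = j) ∧
      (∀ i < r, P i ∈ NN hc) ∧ ∀ g ∈ NN hc, ∃ i < r, (P i)⁻¹ * g ∈ L := by
  classical
  obtain ⟨α, hα⟩ := hne
  obtain ⟨y, -, hy⟩ := transversal (H := NN hc) (K := L) (E := cm s '' E)
    (fun a ha b _ => NN_comm hc ha b) hL (by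
      rintro _ ⟨e, he, rfl⟩
      exact cm_mem hc (hE he)) (NN_le_closure hc hE hgen)
  obtain ⟨r, P, hr, hP0, -, hstep, hinj, hC, hcov⟩ := seq_of_ham hy
  have hex : ∀ i, ∃ e ∈ E, i + 1 < r → P (i + 1) = P i * cm s e := by
    intro i
    by_cases hi : i + 1 < r
    · obtain ⟨e, he, h⟩ := hstep i hi
      refine ⟨e, he, fun _ => ?_⟩
      rw [h, mul_inv_cancel_left]
    · exact ⟨α, hα, fun h => absurd h hi⟩
  choose ε hε hε' using hex
  refine ⟨r, P, ε, hr, hP0, hε, hε', ?_, hC, hcov⟩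
  intro i hi j hj hL'
  rcases Nat.lt_trichotomy i j with h | h | h
  · exact absurd hL' (hinj i j h hj)
  · exact h
  · have := L.inv_mem hL'
    rw [mul_inv_rev, inv_inv] at this
    exact absurd this (hinj j i h hi)

theorem memH {u n v : G} (hu : u ∈ H) (hv : v ∈ H) (hn : n * v = v * n) :
    u⁻¹ * (n * v) ∈ H ↔ n ∈ H := by
  rw [Subgroup.mul_mem_cancel_left H (H.inv_mem hu), hn, Subgroup.mul_mem_cancel_left H hv]

theorem lay_mem {hc : Cen H s} {j : ℤ} {g : G} (h : Lay hc j g) : g ∈ H ⊔ Subgroup.zpowers s := by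
  have e : g = s ^ j * ((s ^ j)⁻¹ * g) := by group
  rw [e]
  exact Subgroup.mul_mem _ (Subgroup.zpow_mem _ (Subgroup.mem_sup_right
    (Subgroup.mem_zpowers s)) j) (AA_le hc h)

theorem lay_shift {hc : Cen H s} {i j : ℤ} {g : G} (h : Lay hc i g) (hs : s ^ (i - j) ∈ AA hc) :
    Lay hc j g := by
  unfold Lay at h ⊢
  have e : (s ^ j)⁻¹ * g = s ^ (i - j) * ((s ^ i)⁻¹ * g) := by
    rw [zpow_sub]
    have : s ^ i * (s ^ j)⁻¹ = (s ^ j)⁻¹ * s ^ i := by
      rw [← zpow_neg, ← zpow_add, ← zpow_add, add_comm]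
    rw [this]; group
  rw [e]
  exact Subgroup.mul_mem _ hs h

theorem even_case [Finite G] (hc : Cen H s) {E : Set G} (hE : E ⊆ H) (hinv : ∀ e ∈ E, e⁻¹ ∈ E)
    (hgen : H ≤ Subgroup.closure E) (hne : E.Nonempty) {m : ℕ} (hm0 : 0 < m)
    (hm : ∀ k : ℤ, s ^ k ∈ AA hc ↔ (m : ℤ) ∣ k) (heven : Even m) :
    ∃ y, Lay hc (-1) y ∧ Ham (St E s) H (H ⊔ Subgroup.zpowers s : Subgroup G) 1 y := by
  obtain ⟨α, hα⟩ := hne
  obtain ⟨r, P, ε, hr, hP0, hε, hPs, hPi, hPN, hPc⟩ := trans_seq hc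
    (L := NN hc ⊓ H) inf_le_left hE hgen ⟨α, hα⟩
  let a : ℕ → G := fun l => if l = 0 then α else ε (l - 1)
  let c : ℕ → G := fun l => (ε l)⁻¹
  let R : ℕ → G := fun l => cm s α * P l
  have haE : ∀ l, a l ∈ E := by
    intro l
    simp only [a]
    split_ifs
    · exact hα
    · exact hε _
  have hcE : ∀ l, c l ∈ E := fun l => hinv _ (hε l)
  have hz : Zig H s a c P R (r - 1) :=
    { cen := hc
      a_mem := fun l => hE (haE l)
      c_mem := fun l => hE (hcE l)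
      Q0 := hP0
      R0 := by simp [R, a, hP0]
      Qs := fun l hl => by
        rw [hPs l (by omega)]
        simp only [c]
        rw [cm_inv hc (hE (hε l)), inv_inv]
      Rs := fun l hl => by
        simp only [R, a]
        rw [hPs l (by omega), if_neg (by omega), Nat.add_sub_cancel, mul_assoc] }
  have hαN : cm s α ∈ NN hc := cm_mem hc (hE hα)
  set b := bb s a c P R with hb
  obtain ⟨B, hB⟩ : ∃ B, B = b (2 * r - 1) * (α * s) := ⟨_, rfl⟩
  have hlast : b (2 * r - 1) = od s a c R (r - 1) := by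
    rw [hb, show 2 * r - 1 = 2 * (r - 1) + 1 by omega, bb_odd]
  have hBlay : Lay hc 2 B := by
    rw [hB, hlast]
    have h1 := (hz.lay_od le_rfl).mul ((lay_zero (H_le_AA hc (hE hα))).mul (lay_one hc))
    simpa using h1
  have hblay : ∀ i < 2 * r, Lay hc ((i % 2 : ℕ) : ℤ) (b i) := by
    intro i hi
    rcases Nat.even_or_odd' i with ⟨l, rfl | rfl⟩
    · rw [hb, bb_even, show 2 * l % 2 = 0 by omega]
      exact hz.lay_ev (by omega)
    · rw [hb, bb_odd, show (2 * l + 1) % 2 = 1 by omega]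
      exact hz.lay_od (by omega)
  have hlay : ∀ j i : ℕ, i < 2 * r → Lay hc ((j : ℤ) * 2 + ((i % 2 : ℕ) : ℤ)) (B ^ j * b i) :=
    fun j i hi => (hBlay.pow j).mul (hblay i hi)
  obtain ⟨J, hJ⟩ : ∃ J, m = J + J := heven
  refine ⟨B ^ (J - 1) * b (2 * r - 1), ?_,
    ham_of_blocks b B (ρ := 2 * r) (J := J) (by omega) (by omega) ?_ ?_ ?_ ?_ ?_ ?_⟩
  · refine lay_shift (hlay (J - 1) (2 * r - 1) (by omega)) ((hm _).2 ⟨1, ?_⟩)
    rw [show (2 * r - 1) % 2 = 1 by omega, hJ]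
    push_cast [Nat.cast_sub (show 1 ≤ J by omega)]
    ring
  · rw [hb, show (0 : ℕ) = 2 * 0 by rfl, bb_even]
    simp [ev, hh, hP0]
  · intro i hi
    exact hz.bb_step haE hcE (by omega)
  · rw [hB, inv_mul_cancel_left]
    exact ⟨α, hα, Or.inl rfl⟩
  · -- distinct cosets
    intro j hj j' hj' i hi i' hi' hx
    have h1 := lay_unique ((hlay j i hi).inv.mul (hlay j' i' hi')) (lay_zero (H_le_AA hc hx))
    rw [hm] at h1
    obtain ⟨q, hq⟩ := h1
    have hi2 := Nat.mod_lt i (show 0 < 2 by norm_num)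
    have hi2' := Nat.mod_lt i' (show 0 < 2 by norm_num)
    have hq0 : q = 0 := by
      have hmZ : (m : ℤ) = J + J := by exact_mod_cast hJ
      rcases lt_trichotomy q 0 with h | h | h
      · exfalso
        have : (m : ℤ) * q ≤ -m := by nlinarith
        omega
      · exact h
      · exfalso
        have : (m : ℤ) ≤ m * q := by nlinarith
        omega
    rw [hq0, mul_zero] at hq
    have hjj : j = j' := by omega
    have hii : i % 2 = i' % 2 := by omega
    subst hjj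
    refine ⟨rfl, ?_⟩
    have hx' : (b i)⁻¹ * b i' ∈ H := by
      have e : (B ^ j * b i)⁻¹ * (B ^ j * b i') = (b i)⁻¹ * b i' := by group
      rwa [e] at hx
    rcases Nat.even_or_odd' i with ⟨l, rfl | rfl⟩
    · rcases Nat.even_or_odd' i' with ⟨l', rfl | rfl⟩
      · rw [hb, bb_even, bb_even] at hx'
        have e : (ev a c P l)⁻¹ * ev a c P l' =
            (hh a c l)⁻¹ * (((P l)⁻¹ * P l') * hh a c l') := by simp only [ev]; group
        have hN : (P l)⁻¹ * P l' ∈ NN hc :=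
          Subgroup.mul_mem _ (Subgroup.inv_mem _ (hPN l (by omega))) (hPN l' (by omega))
        rw [e, memH (hz.hh_mem l) (hz.hh_mem l') (NN_comm hc hN _)] at hx'
        rw [hPi l (by omega) l' (by omega) ⟨hN, hx'⟩]
      · omega
    · rcases Nat.even_or_odd' i' with ⟨l', rfl | rfl⟩
      · omega
      · rw [hb, bb_odd, bb_odd] at hx'
        have hN : (P l)⁻¹ * P l' ∈ NN hc :=
          Subgroup.mul_mem _ (Subgroup.inv_mem _ (hPN l (by omega))) (hPN l' (by omega))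
        have e : (od s a c R l)⁻¹ * od s a c R l' =
            (hh a c l * a l)⁻¹ * (((P l)⁻¹ * P l') * (hh a c l' * a l')) := by
          have e1 : (od s a c R l)⁻¹ * od s a c R l' =
            (hh a c l * a l)⁻¹ * (s⁻¹ * (((P l)⁻¹ * P l') * s) * (hh a c l' * a l')) := by
            simp only [od, R]; group
          rw [e1, NN_comm hc hN s, inv_mul_cancel_left]
        rw [e, memH (hz.ha_mem l) (hz.ha_mem l') (NN_comm hc hN _)] at hx'
        rw [hPi l (by omega) l' (by omega) ⟨hN, hx'⟩]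
  · intro j hj i hi
    exact lay_mem (hlay j i hi)
  · -- all cosets
    intro g hg
    obtain ⟨j₀, hj₀⟩ := lay_exists (hc := hc) hg
    have hmpos : (0 : ℤ) < m := by exact_mod_cast hm0
    have h0 := Int.emod_nonneg j₀ hmpos.ne'
    have h1 := Int.emod_lt_of_pos j₀ hmpos
    have hj₁ : Lay hc (j₀ % m) g := lay_shift hj₀ ((hm _).2 ⟨j₀ / m, by
      have := Int.emod_add_mul_ediv j₀ m
      omega⟩)
    obtain ⟨j₁, hj₁'⟩ : ∃ j₁ : ℕ, (j₁ : ℤ) = j₀ % m := ⟨(j₀ % m).toNat, Int.toNat_of_nonneg h0⟩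
    rw [← hj₁'] at hj₁ h1
    have hlt : j₁ < m := by exact_mod_cast h1
    rcases Nat.even_or_odd' j₁ with ⟨t, rfl | rfl⟩
    · have h2 := (hBlay.pow t).inv.mul hj₁
      have e0 : -((t : ℤ) * 2) + ((2 * t : ℕ) : ℤ) = 0 := by push_cast; ring
      rw [e0] at h2
      unfold Lay at h2
      rw [zpow_zero, inv_one, one_mul] at h2
      obtain ⟨n, hn, h, hh', hnh⟩ := h2
      obtain ⟨l, hl, hlL⟩ := hPc n hn
      refine ⟨t, by omega, 2 * l, by omega, ?_⟩
      have e : (B ^ t * b (2 * l))⁻¹ * g = (hh a c l)⁻¹ * (((P l)⁻¹ * n) * h) := by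
        rw [hb, bb_even]
        have : (B ^ t * ev a c P l)⁻¹ * g = (ev a c P l)⁻¹ * ((B ^ t)⁻¹ * g) := by group
        rw [this, hnh]
        simp only [ev]; group
      rw [e, memH (hz.hh_mem l) hh' (NN_comm hc hlL.1 _)]
      exact hlL.2
    · have h2 := (hBlay.pow t).inv.mul hj₁
      have e0 : -((t : ℤ) * 2) + ((2 * t + 1 : ℕ) : ℤ) = 1 := by push_cast; ring
      rw [e0] at h2
      unfold Lay at h2
      rw [zpow_one] at h2
      obtain ⟨n, hn, h, hh', hnh⟩ := h2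
      have hn' : (cm s α)⁻¹ * n ∈ NN hc := Subgroup.mul_mem _ (Subgroup.inv_mem _ hαN) hn
      obtain ⟨l, hl, hlL⟩ := hPc _ hn'
      refine ⟨t, by omega, 2 * l + 1, by omega, ?_⟩
      have hRN : (R l)⁻¹ ∈ NN hc := Subgroup.inv_mem _ (Subgroup.mul_mem _ hαN (hPN l hl))
      have e : (B ^ t * b (2 * l + 1))⁻¹ * g =
          (hh a c l * a l)⁻¹ * (((P l)⁻¹ * ((cm s α)⁻¹ * n)) * h) := by
        rw [hb, bb_odd]
        have e1 : (B ^ t * od s a c R l)⁻¹ * g = (hh a c l * a l)⁻¹ * (s⁻¹ * (R l)⁻¹ *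
            ((B ^ t)⁻¹ * g)) := by simp only [od]; group
        rw [e1, ← NN_comm hc hRN s⁻¹]
        have e2 : (R l)⁻¹ * s⁻¹ * ((B ^ t)⁻¹ * g) = (R l)⁻¹ * (s⁻¹ * ((B ^ t)⁻¹ * g)) := by group
        rw [e2, hnh]
        simp only [R]; group
      rw [e, memH (hz.ha_mem l) hh' (NN_comm hc hlL.1 _)]
      exact hlL.2

end Pool.Agent.U801.CT
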