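import Pool.Agent.U801.CT.PropE

/-!
# Listing sequences for groups of class two modulo `N`
-/

set_option autoImplicit false

namespace Pool.Agent.U801.CT

open Pool.Agent.N47.CG
open scoped commutatorElement

variable {G : Type*} [Group G]

/-- the end points of the Hamiltonian paths of `H` generate `H` if there is a closed one -/
theorem ends_of_closed {S : Set G} {H : Subgroup G} {p : List G} (h1 : p.Nodup)
    (h2 : ∀ g, g ∈ p ↔ g ∈ H) (h3 : p.IsChain (fun g h => g⁻¹ * h ∈ S))
    {x y : G} (hx : p.head? = some x) (hy : p.getLast? = some y) (hxy : y⁻¹ * x ∈ S) :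
    H ≤ Subgroup.closure (Ends S H) := by
  have hham : Ham S ⊥ H x y := by
    refine ⟨p, h3, ?_, fun g hg => (h2 g).1 hg, fun g hg => ⟨g, (h2 g).2 hg, by simp⟩, hx, hy⟩
    refine h1.imp fun {a b} hab hbot => hab ?_
    rwa [Subgroup.mem_bot, inv_mul_eq_one] at hbot
  obtain ⟨r, Y, hr, hY0, hY1, hstep, hinj, hC, hcov⟩ := seq_of_ham hham
  have hrot : ∀ i < r, (Y i)⁻¹ * Y ((i + (r - 1)) % r) ∈ Ends S H := by
    intro i hi
    have hZ := ham_of_seq (S := S) (K := ⊥) (C := (H : Set G)) (fun j => Y ((i + j) % r)) hr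
      ?_ ?_ ?_ ?_
    · simp only [Nat.add_zero, Nat.mod_eq_of_lt hi] at hZ
      exact ham_one hZ
    · intro j hj
      have hlt := Nat.mod_lt (i + j) hr
      by_cases hc : (i + j) % r + 1 < r
      · have e : (i + (j + 1)) % r = (i + j) % r + 1 := by
          rw [← Nat.add_assoc, Nat.add_mod, Nat.mod_eq_of_lt (show 1 < r by omega)]
          exact Nat.mod_eq_of_lt hc
        simp only [e]
        exact hstep _ hc
      · have e1 : (i + j) % r = r - 1 := by omega
        have e2 : (i + (j + 1)) % r = 0 := by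
          have h4 := Nat.div_add_mod (i + j) r
          have e3 : i + (j + 1) = r * ((i + j) / r + 1) := by
            rw [Nat.mul_add]; omega
          rw [e3]
          exact Nat.mul_mod_right _ _
        simp only [e1, e2]
        rw [hY0, hY1]
        exact hxy
    · intro j j' hjj hj' hbot
      have h4 : (i + j) % r ≠ (i + j') % r := by
        intro h
        have h5 := Nat.div_add_mod (i + j) r
        have h6 := Nat.div_add_mod (i + j') r
        have h7 : (i + j) / r = (i + j') / r ∨ (i + j) / r + 1 ≤ (i + j') / r := by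
          have := Nat.div_le_div_right (c := r) (show i + j ≤ i + j' by omega)
          omega
        rcases h7 with h7 | h7
        · rw [h7, h] at h5
          omega
        · have h8 := Nat.mul_le_mul_left r h7
          rw [Nat.mul_add] at h8
          omega
      have hl1 := Nat.mod_lt (i + j) hr
      have hl2 := Nat.mod_lt (i + j') hr
      rcases Nat.lt_or_gt_of_ne h4 with h5 | h5
      · exact hinj _ _ h5 hl2 hbot
      · apply hinj _ _ h5 hl1
        have := Subgroup.inv_mem _ hbot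
        rwa [mul_inv_rev, inv_inv] at this
    · intro j _
      exact hC _ (Nat.mod_lt _ hr)
    · intro g hg
      obtain ⟨j, hj, hjg⟩ := hcov g hg
      refine ⟨(j + (r - i)) % r, Nat.mod_lt _ hr, ?_⟩
      have e : (i + (j + (r - i)) % r) % r = j := by
        rw [Nat.add_mod_mod, show i + (j + (r - i)) = j + r by omega, Nat.add_mod_right]
        exact Nat.mod_eq_of_lt hj
      simp only [e]
      exact hjg
  have hmem : ∀ i < r, (Y 0)⁻¹ * Y i ∈ Subgroup.closure (Ends S H) := by
    intro i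
    induction i with
    | zero => intro _; rw [inv_mul_cancel]; exact Subgroup.one_mem _
    | succ i ih =>
      intro hi
      have h4 := hrot (i + 1) hi
      have e : (i + 1 + (r - 1)) % r = i := by
        rw [show i + 1 + (r - 1) = i + r by omega, Nat.add_mod_right]
        exact Nat.mod_eq_of_lt (by omega)
      rw [e] at h4
      have h5 := Subgroup.mul_mem _ (ih (by omega)) (Subgroup.inv_mem _
        (Subgroup.subset_closure h4))
      have e2 : (Y 0)⁻¹ * Y i * ((Y (i + 1))⁻¹ * Y i)⁻¹ = (Y 0)⁻¹ * Y (i + 1) := by group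
      rwa [e2] at h5
  intro h hh
  obtain ⟨i, hi, h4⟩ := hcov (Y 0 * h) (H.mul_mem (hC 0 hr) hh)
  rw [Subgroup.mem_bot, inv_mul_eq_one] at h4
  have h5 := hmem i hi
  rwa [h4, inv_mul_cancel_left] at h5

/-- the end points of the Hamiltonian paths from `1` -/
def EndPts (S : Set G) : Set G :=
  {e | ∃ p : List G, p.Nodup ∧ (∀ g, g ∈ p) ∧ p.IsChain (fun g h => g⁻¹ * h ∈ S) ∧
    p.head? = some 1 ∧ p.getLast? = some e}

theorem endPts_of_ends {S : Set G} {e : G} (he : e ∈ Ends S (⊤ : Subgroup G)) : e ∈ EndPts S := by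
  obtain ⟨p, p1, p2, p3, p4, p5, p6⟩ := he
  refine ⟨p, ?_, fun g => ?_, p1, p5, p6⟩
  · refine p2.imp fun {a b} hab he => hab ?_
    rw [he]
    simp
  · obtain ⟨h, h1, h2⟩ := p4 g trivial
    rw [Subgroup.mem_bot, inv_mul_eq_one] at h2
    rwa [← h2]

theorem listing_of_end [Finite G] {S : Set G} (hne : S.Nonempty) {e : G}
    (he : e ∈ Ends S (⊤ : Subgroup G)) :
    ∃ a : Fin (Nat.card G) → G, (∀ i, a i ∈ S) ∧
      Function.Injective (fun k : Fin (Nat.card G) => ((List.ofFn a).take (k.val + 1)).prod) := by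
  obtain ⟨s, hs⟩ := hne
  have he' : Ham S ⊥ (⊤ : Subgroup G) 1 e := he
  have h1 := he'.smul s
  rw [mul_one] at h1
  exact listing_of_ham hs (h1.congr (D := Set.univ) fun v => ⟨fun _ => trivial, fun _ => trivial⟩)

theorem main [Finite G] {S : Set G}
    (hS : ∀ x ∈ S, x⁻¹ ∈ S) (hgen : Subgroup.closure S = ⊤) {N H : Subgroup G} [N.Normal]
    (hNH : N ≤ H) (hcl : ∀ a b c : G, ⁅⁅a, b⁆, c⁆ ∈ N)
    (hH : ∃ p : List G, p.Nodup ∧ (∀ g, g ∈ p ↔ g ∈ H) ∧ p.IsChain (fun g h => g⁻¹ * h ∈ S) ∧
      (H = N ∨ ∃ x y, p.head? = some x ∧ p.getLast? = some y ∧ y⁻¹ * x ∈ S)) :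
    ((∀ h ∈ H, ∃ k : ℕ, Odd k ∧ h ^ k ∈ N) →
      (Ends S (⊤ : Subgroup G)).Nonempty ∧ Subgroup.closure (EndPts S) ⊔ N = ⊤) ∧
    ((∃ s ∈ S, S ⊆ H ∪ {s, s⁻¹}) → (Ends S (⊤ : Subgroup G)).Nonempty) := by
  classical
  obtain ⟨p, p1, p2, p3, p4⟩ := hH
  obtain ⟨x₀, y₀, hp⟩ := ham_of_list ⟨p, p1, p2, p3⟩
  have hneE : (Ends S H).Nonempty := ⟨_, ham_one hp⟩
  have hgenE : H ≤ Subgroup.closure (Ends S H) ⊔ N := by
    rcases p4 with rfl | ⟨x, y, hx, hy, hxy⟩
    · exact le_sup_right
    · exact (ends_of_closed p1 p2 p3 hx hy hxy).trans le_sup_left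
  constructor
  · intro hodd
    obtain ⟨h1, h2⟩ := propE hS hcl hNH hodd hneE hgenE (Set.toFinite S).toFinset (by simp)
    rw [Set.Finite.coe_toFinset, hgen, sup_top_eq] at h1 h2
    refine ⟨h1, ?_⟩
    rw [← top_le_iff]
    refine h2.trans (sup_le_sup_right (Subgroup.closure_mono fun e he => ?_) N)
    exact endPts_of_ends he
  · rintro ⟨s, hs, hSs⟩
    obtain ⟨y, -, hy⟩ := step hS hcl hNH hneE hgenE s
    have htop : H ⊔ Subgroup.zpowers s = ⊤ := by
      rw [← top_le_iff, ← hgen, Subgroup.closure_le]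
      intro g hg
      have hsm : s ∈ H ⊔ Subgroup.zpowers s := Subgroup.mem_sup_right (Subgroup.mem_zpowers s)
      rcases hSs hg with h | h | h
      · exact Subgroup.mem_sup_left h
      · rw [h]; exact hsm
      · rw [Set.mem_singleton_iff] at h
        rw [h]; exact Subgroup.inv_mem _ hsm
    obtain ⟨e, he⟩ := hneE
    have := ends_step hS hs hy e he
    rw [htop] at this
    exact ⟨_, this⟩

end Pool.Agent.U801.CT
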