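import Pool.Agent.U801.CT.Even

/-!
# The paths of cosets: an odd number of layers
-/

set_option autoImplicit false

namespace Pool.Agent.U801.CT

open Pool.Agent.N47.CG

variable {G : Type*} [Group G] {H : Subgroup G} {s : G}

/-- `[h, s]^j = [h, s^j]` -/
theorem cm_pow (hc : Cen H s) {h : G} (hh : h ∈ H) (j : ℕ) :
    h * s ^ j = cm s h ^ j * (s ^ j * h) := by
  induction j with
  | zero => simp
  | succ j ih =>
    have h1 := NN_comm hc (cm_mem hc hh) (s ^ j)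
    have e : h * s ^ (j + 1) = (h * s ^ j) * s := by rw [pow_succ, mul_assoc]
    rw [e, ih]
    have e2 : cm s h ^ j * (s ^ j * h) * s = cm s h ^ j * (s ^ j * (h * s)) := by group
    rw [e2, hs_eq h, ← mul_assoc (s ^ j), ← h1, pow_succ (cm s h), pow_succ s]
    group

/-- the exponent of the group of commutators modulo `H` -/
theorem pow_mem_H (hc : Cen H s) {m : ℕ} {z h₀ : G} (hz : z ∈ NN hc) (hh₀ : h₀ ∈ H)
    (hs : s ^ m = z * h₀) {n : G} (hn : n ∈ NN hc) : n ^ m ∈ H := by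
  obtain ⟨h, hh, rfl⟩ := hn
  have h1 := cm_pow hc hh m
  rw [hs] at h1
  have e : cm s h ^ m = (h * (z * h₀)) * (z * h₀ * h)⁻¹ := by
    rw [h1]; group
  have e2 : h * (z * h₀) = z * (h * h₀) := by
    rw [← mul_assoc, ← NN_comm hc hz h, mul_assoc]
  rw [e, e2]
  have e3 : z * (h * h₀) * (z * h₀ * h)⁻¹ = z * (h * h₀ * (h₀ * h)⁻¹) * z⁻¹ := by group
  have e4 : z * (h * h₀ * (h₀ * h)⁻¹) * z⁻¹ = h * h₀ * (h₀ * h)⁻¹ := by
    rw [NN_comm hc hz]; group
  rw [e3, e4]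
  exact H.mul_mem (H.mul_mem hh hh₀) (H.inv_mem (H.mul_mem hh₀ hh))

/-- powers of `s h` -/
theorem sh_pow (hc : Cen H s) {h : G} (hh : h ∈ H) (j : ℕ) :
    (s * h) ^ j = cm s h ^ (j * (j - 1) / 2) * (s ^ j * h ^ j) := by
  induction j with
  | zero => simp
  | succ j ih =>
    have hN : ∀ i : ℕ, ∀ k : G, cm s h ^ i * k = k * cm s h ^ i := fun i k =>
      NN_comm hc (Subgroup.pow_mem _ (cm_mem hc hh) i) k
    have h1 : h ^ j * s = cm s h ^ j * (s * h ^ j) := by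
      have h2 : cm s (h ^ j) = cm s h ^ j := by
        clear ih
        induction j with
        | zero => simp [cm_one]
        | succ j ih => rw [pow_succ, cm_mul hc (H.pow_mem hh j) hh, ih, pow_succ]
      rw [hs_eq, h2]
    have e : (j + 1) * (j + 1 - 1) / 2 = j * (j - 1) / 2 + j := by
      rw [Nat.add_sub_cancel]
      rcases Nat.eq_zero_or_pos j with rfl | hj
      · rfl
      · obtain ⟨i, rfl⟩ : ∃ i, j = i + 1 := ⟨j - 1, by omega⟩
        have e1 : (i + 1 + 1) * (i + 1) = (i + 1) * (i + 1 - 1) + (i + 1) * 2 := by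
          rw [Nat.add_sub_cancel]; ring
        rw [e1, Nat.add_mul_div_right _ _ (by norm_num)]
    rw [pow_succ, ih, e, pow_add]
    have e2 : cm s h ^ (j * (j - 1) / 2) * (s ^ j * h ^ j) * (s * h) =
        cm s h ^ (j * (j - 1) / 2) * (s ^ j * (h ^ j * s) * h) := by group
    rw [e2, h1]
    have e3 : s ^ j * (cm s h ^ j * (s * h ^ j)) * h = cm s h ^ j * (s ^ j * (s * h ^ j) * h) := by
      rw [← mul_assoc (s ^ j), ← hN j (s ^ j)]; group
    rw [e3, pow_succ s, pow_succ h]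
    group

/-- the length of the list of the cosets is odd -/
theorem odd_len [Finite G] (hc : Cen H s) {L : Subgroup G} {m : ℕ} (hodd : Odd m)
    (hexp : ∀ n ∈ NN hc, n ^ m ∈ L) {r : ℕ} {P : ℕ → G}
    (hPi : ∀ i < r, ∀ j < r, (P i)⁻¹ * P j ∈ L → i = j)
    (hPN : ∀ i < r, P i ∈ NN hc) (hPc : ∀ g ∈ NN hc, ∃ i < r, (P i)⁻¹ * g ∈ L) : Odd r := by
  classical
  have hnorm : (L.subgroupOf (NN hc)).Normal := ⟨by
    intro x hx g
    have e : g * x * g⁻¹ = x := by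
      apply Subtype.ext
      have := NN_comm hc x.2 g
      simp only [Subgroup.coe_mul, Subgroup.coe_inv]
      rw [← this, mul_inv_cancel_right]
    rw [e]
    exact hx⟩
  let f : Fin r → (NN hc) ⧸ (L.subgroupOf (NN hc)) := fun i =>
    QuotientGroup.mk (⟨P i, hPN i i.isLt⟩ : NN hc)
  have hf : Function.Bijective f := by
    constructor
    · intro i j hij
      have h1 := QuotientGroup.eq.1 hij
      rw [Subgroup.mem_subgroupOf] at h1
      exact Fin.ext (hPi i i.isLt j j.isLt h1)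
    · intro x
      obtain ⟨g, rfl⟩ := QuotientGroup.mk_surjective x
      obtain ⟨i, hi, h⟩ := hPc g.1 g.2
      refine ⟨⟨i, hi⟩, QuotientGroup.eq.2 ?_⟩
      rw [Subgroup.mem_subgroupOf]
      exact h
  have hcard : Nat.card ((NN hc) ⧸ (L.subgroupOf (NN hc))) = r := by
    rw [← Nat.card_eq_of_bijective f hf, Nat.card_eq_fintype_card, Fintype.card_fin]
  by_contra hcon
  rw [Nat.not_odd_iff_even, even_iff_two_dvd] at hcon
  have hp : Fact (Nat.Prime 2) := ⟨Nat.prime_two⟩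
  obtain ⟨x, hx⟩ := exists_prime_orderOf_dvd_card' 2 (G := (NN hc) ⧸ (L.subgroupOf (NN hc)))
    (by rw [hcard]; exact hcon)
  obtain ⟨g, rfl⟩ := QuotientGroup.mk_surjective x
  have h1 : (QuotientGroup.mk g : (NN hc) ⧸ (L.subgroupOf (NN hc))) ^ m = 1 := by
    rw [← QuotientGroup.mk_pow, QuotientGroup.eq_one_iff, Subgroup.mem_subgroupOf]
    exact hexp g.1 g.2
  have h2 := orderOf_dvd_of_pow_eq_one h1
  rw [hx] at h2
  exact (Nat.not_even_iff_odd.2 hodd) (even_iff_two_dvd.2 h2)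

/-- the subgroup generated by `z` and `N ∩ H` -/
def LL (hc : Cen H s) {z : G} (hz : z ∈ NN hc) : Subgroup G where
  carrier := {x | ∃ q : ℤ, ∃ y ∈ NN hc ⊓ H, x = z ^ q * y}
  one_mem' := ⟨0, 1, Subgroup.one_mem _, by simp⟩
  mul_mem' := by
    rintro _ _ ⟨q, y, hy, rfl⟩ ⟨q', y', hy', rfl⟩
    refine ⟨q + q', y * y', Subgroup.mul_mem _ hy hy', ?_⟩
    have h1 := NN_comm hc (Subgroup.zpow_mem _ hz q') y
    rw [zpow_add, mul_assoc, mul_assoc, ← mul_assoc y, ← h1, mul_assoc]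
  inv_mem' := by
    rintro _ ⟨q, y, hy, rfl⟩
    refine ⟨-q, y⁻¹, Subgroup.inv_mem _ hy, ?_⟩
    rw [mul_inv_rev, zpow_neg]
    exact NN_comm hc (Subgroup.inv_mem _ hy.1) _

theorem LL_le (hc : Cen H s) {z : G} (hz : z ∈ NN hc) : LL hc hz ≤ NN hc := by
  rintro _ ⟨q, y, hy, rfl⟩
  exact Subgroup.mul_mem _ (Subgroup.zpow_mem _ hz q) hy.1

theorem odd_case [Finite G] (hc : Cen H s) {E : Set G} (hE : E ⊆ H) (hinv : ∀ e ∈ E, e⁻¹ ∈ E)
    (hgen : H ≤ Subgroup.closure E) (hne : E.Nonempty) {m : ℕ} (hm0 : 0 < m)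
    (hm : ∀ k : ℤ, s ^ k ∈ AA hc ↔ (m : ℤ) ∣ k) (hodd : Odd m) :
    ∃ y, Lay hc (-1) y ∧ Ham (St E s) H (H ⊔ Subgroup.zpowers s : Subgroup G) 1 y := by
  obtain ⟨α, hα⟩ := hne
  -- `s ^ m = z h₀`
  obtain ⟨z, hz, h₀, hh₀, hsm⟩ : s ^ m ∈ AA hc := by
    have := (hm m).2 dvd_rfl
    rwa [zpow_natCast] at this
  obtain ⟨τ, hτ0, hτ⟩ := ordmod H z
  obtain ⟨r, P, ε, hr, hP0, hε, hPs, hPi, hPN, hPc⟩ := trans_seq hc (L := LL hc hz)
    (LL_le hc hz) hE hgen ⟨α, hα⟩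
  have hexpH : ∀ n ∈ NN hc, n ^ m ∈ H := fun n hn => pow_mem_H hc hz hh₀ hsm hn
  have hrodd : Odd r := odd_len hc (L := LL hc hz) hodd (fun n hn =>
    ⟨0, n ^ m, ⟨Subgroup.pow_mem _ hn m, hexpH n hn⟩, by simp⟩) hPi hPN hPc
  obtain ⟨k, rfl⟩ := hrodd
  have hPkN : P k ∈ NN hc := hPN k (by omega)
  let a : ℕ → G := fun l => if l = 0 then α else ε (l - 1)
  let c : ℕ → G := fun l => (ε (k + l))⁻¹
  let Q : ℕ → G := fun l => (P k)⁻¹ * P (k + l)
  let R : ℕ → G := fun l => cm s α * P l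
  have haE : ∀ l, a l ∈ E := by
    intro l
    simp only [a]
    split_ifs
    · exact hα
    · exact hε _
  have hcE : ∀ l, c l ∈ E := fun l => hinv _ (hε _)
  have hzg : Zig H s a c Q R k :=
    { cen := hc
      a_mem := fun l => hE (haE l)
      c_mem := fun l => hE (hcE l)
      Q0 := by simp [Q]
      R0 := by simp [R, a, hP0]
      Qs := fun l hl => by
        simp only [Q, c]
        rw [← Nat.add_assoc, hPs (k + l) (by omega), cm_inv hc (hE (hε _)), inv_inv, mul_assoc]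
      Rs := fun l hl => by
        simp only [R, a]
        rw [hPs l (by omega), if_neg (by omega), Nat.add_sub_cancel, mul_assoc] }
  have hαN : cm s α ∈ NN hc := cm_mem hc (hE hα)
  set b := bb s a c Q R with hb
  obtain ⟨B, hB⟩ : ∃ B, B = b (2 * k + 1) := ⟨_, rfl⟩
  have hB' : B = od s a c R k := by rw [hB, hb, bb_odd]
  have hBlay : Lay hc 1 B := by
    rw [hB']
    exact hzg.lay_od le_rfl
  -- `B ^ m = z h₁`
  obtain ⟨h₁, hh₁, hBm⟩ : ∃ h₁ ∈ H, B ^ m = z * h₁ := by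
    have hRk : R k ∈ NN hc := hzg.R_mem k le_rfl
    have hH := hzg.ha_mem k
    have e1 : B = R k * (s * (hh a c k * a k)) := by rw [hB']; simp only [od]; group
    have e2 : B ^ m = R k ^ m * (s * (hh a c k * a k)) ^ m := by
      rw [e1]
      exact (show Commute (R k) (s * (hh a c k * a k)) from NN_comm hc hRk _).mul_pow m
    have hu : cm s (hh a c k * a k) ^ (m * (m - 1) / 2) ∈ H := by
      obtain ⟨q, hq⟩ := hodd
      have e3 : m * (m - 1) / 2 = m * q := by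
        rw [hq, Nat.add_sub_cancel, show (2 * q + 1) * (2 * q) = (2 * q + 1) * q * 2 by ring,
          Nat.mul_div_cancel _ (by norm_num)]
      rw [e3, pow_mul]
      exact H.pow_mem (hexpH _ (cm_mem hc hH)) q
    have hzc : ∀ x : G, z * x = x * z := NN_comm hc hz
    refine ⟨R k ^ m * (cm s (hh a c k * a k) ^ (m * (m - 1) / 2) * (h₀ * (hh a c k * a k) ^ m)),
      H.mul_mem (hexpH _ hRk) (H.mul_mem hu (H.mul_mem hh₀ (H.pow_mem hH m))), ?_⟩
    rw [e2, sh_pow hc hH, hsm]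
    have e4 : R k ^ m * (cm s (hh a c k * a k) ^ (m * (m - 1) / 2) *
        (z * h₀ * (hh a c k * a k) ^ m)) = (R k ^ m * cm s (hh a c k * a k) ^ (m * (m - 1) / 2)) *
        z * (h₀ * (hh a c k * a k) ^ m) := by group
    rw [e4, ← hzc]
    group
  have hzB : ∀ t : ℤ, ∃ h ∈ H, B ^ ((m : ℤ) * t) = z ^ t * h := by
    intro t
    refine ⟨h₁ ^ t, H.zpow_mem hh₁ t, ?_⟩
    rw [zpow_mul, zpow_natCast, hBm]
    exact (show Commute z h₁ from NN_comm hc hz h₁).mul_zpow t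
  have hBJ : ∀ t : ℤ, B ^ ((m * τ : ℕ) * t : ℤ) ∈ H := by
    intro t
    obtain ⟨h, hh', e⟩ := hzB (τ * t)
    have e1 : ((m * τ : ℕ) * t : ℤ) = (m : ℤ) * (τ * t) := by push_cast; ring
    rw [e1, e]
    exact H.mul_mem ((hτ _).2 ⟨t, rfl⟩) hh'
  -- distinct cosets
  have kappa : ∀ j j' : ℤ, ∀ i < 2 * k + 1, ∀ i' < 2 * k + 1,
      (B ^ j * P i)⁻¹ * (B ^ j' * P i') ∈ H → ((m * τ : ℕ) : ℤ) ∣ j' - j ∧ i = i' := by
    intro j j' i hi i' hi' hx
    have hN : (P i)⁻¹ * P i' ∈ NN hc :=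
      Subgroup.mul_mem _ (Subgroup.inv_mem _ (hPN i hi)) (hPN i' hi')
    have e : (B ^ j * P i)⁻¹ * (B ^ j' * P i') = B ^ (j' - j) * ((P i)⁻¹ * P i') := by
      have e1 : (B ^ j * P i)⁻¹ * (B ^ j' * P i') = (P i)⁻¹ * (B ^ (j' - j)) * P i' := by
        rw [zpow_sub, mul_inv_rev]
        have : B ^ j' * (B ^ j)⁻¹ = (B ^ j)⁻¹ * B ^ j' := by
          rw [← zpow_neg, ← zpow_add, ← zpow_add, add_comm]
        rw [this]; group
      rw [e1, NN_comm hc (Subgroup.inv_mem _ (hPN i hi)), mul_assoc]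
    rw [e] at hx
    have h1 := (hBlay.zpow (j' - j)).mul (lay_zero (NN_le_AA hc hN))
    have h2 := lay_unique h1 (lay_zero (H_le_AA hc hx))
    rw [hm] at h2
    obtain ⟨t, ht⟩ := h2
    have ht' : j' - j = m * t := by linarith
    obtain ⟨h, hh', eB⟩ := hzB t
    rw [ht', eB, mul_assoc, ← NN_comm hc hN h, ← mul_assoc] at hx
    have h3 : z ^ t * ((P i)⁻¹ * P i') ∈ H := (Subgroup.mul_mem_cancel_right H hh').1 hx
    have h4 : (P i)⁻¹ * P i' ∈ LL hc hz := by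
      refine ⟨-t, z ^ t * ((P i)⁻¹ * P i'), ⟨Subgroup.mul_mem _ (Subgroup.zpow_mem _ hz t) hN,
        h3⟩, ?_⟩
      rw [zpow_neg, inv_mul_cancel_left]
    have h5 := hPi i hi i' hi' h4
    subst h5
    rw [inv_mul_cancel, mul_one, hτ] at h3
    obtain ⟨q, rfl⟩ := h3
    refine ⟨⟨q, ?_⟩, rfl⟩
    rw [ht']
    push_cast
    ring
  -- the points of the block
  have hblock : ∀ i < 2 * k + 1, ∃ jj ii : ℕ, ii < 2 * k + 1 ∧
      (i = 2 * (ii - k) ∧ jj = 0 ∧ k ≤ ii ∨ i = 2 * ii + 1 ∧ jj = 1 ∧ ii < k) ∧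
      ∃ h ∈ H, b i = B ^ (jj : ℤ) * P ii * (P k)⁻¹ * h := by
    intro i hi
    rcases Nat.even_or_odd' i with ⟨l, rfl | rfl⟩
    · refine ⟨0, k + l, by omega, Or.inl ⟨by omega, rfl, by omega⟩, hh a c l, hzg.hh_mem l, ?_⟩
      rw [hb, bb_even]
      simp only [ev, Q]
      rw [NN_comm hc (Subgroup.inv_mem _ hPkN) (P (k + l))]
      simp
    · refine ⟨1, l, by omega, Or.inr ⟨rfl, rfl, by omega⟩, (hh a c k * a k)⁻¹ * (hh a c l * a l),
        H.mul_mem (H.inv_mem (hzg.ha_mem k)) (hzg.ha_mem l), ?_⟩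
      have hPlN : P l ∈ NN hc := hPN l (by omega)
      rw [hb, bb_odd, hB']
      have hN : P l * (P k)⁻¹ ∈ NN hc := Subgroup.mul_mem _ hPlN (Subgroup.inv_mem _ hPkN)
      have e1 : (od s a c R k) ^ ((1 : ℕ) : ℤ) * P l * (P k)⁻¹ *
          ((hh a c k * a k)⁻¹ * (hh a c l * a l)) =
          R k * s * (hh a c k * a k) * (P l * (P k)⁻¹) * ((hh a c k * a k)⁻¹ *
            (hh a c l * a l)) := by
        simp only [od, Nat.cast_one, zpow_one]; group
      rw [e1, ← NN_comm hc hN]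
      have e2 : P l * (P k)⁻¹ * (R k * s * (hh a c k * a k)) *
          ((hh a c k * a k)⁻¹ * (hh a c l * a l)) =
          (P l * (P k)⁻¹ * (cm s α) * P k) * s * (hh a c l * a l) := by
        simp only [R]; group
      rw [e2, ← NN_comm hc hPkN]
      have e3 : P k * (P l * (P k)⁻¹ * cm s α) = (P k * P l) * (P k)⁻¹ * cm s α := by group
      rw [e3, NN_comm hc hPkN (P l), mul_inv_cancel_right, ← NN_comm hc hαN]
      rfl
  obtain ⟨q₀, hq₀⟩ : ∃ q, q = m * τ := ⟨_, rfl⟩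
  rw [← hq₀] at kappa hBJ
  have hq₀0 : 0 < q₀ := by rw [hq₀]; exact Nat.mul_pos hm0 hτ0
  have hblay : ∀ i < 2 * k + 1, ∃ t : ℤ, Lay hc t (b i) := by
    intro i hi
    rcases Nat.even_or_odd' i with ⟨l, rfl | rfl⟩
    · rw [hb, bb_even]
      exact ⟨0, hzg.lay_ev (by omega)⟩
    · rw [hb, bb_odd]
      exact ⟨1, hzg.lay_od (by omega)⟩
  refine ⟨B ^ (q₀ - 1) * b (2 * k + 1 - 1), ?_,
    ham_of_blocks b B (ρ := 2 * k + 1) (J := q₀) (by omega) hq₀0 ?_ ?_ ?_ ?_ ?_ ?_⟩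
  · rw [Nat.add_sub_cancel]
    have h1 : Lay hc 0 (b (2 * k)) := by
      rw [hb, bb_even]
      exact hzg.lay_ev le_rfl
    refine lay_shift ((hBlay.pow (q₀ - 1)).mul h1) ((hm _).2 ⟨τ, ?_⟩)
    rw [hq₀, Nat.cast_sub (show 1 ≤ m * τ by omega)]
    push_cast
    ring
  · rw [hb, show (0 : ℕ) = 2 * 0 by rfl, bb_even]
    simp [ev, hh, Q]
  · intro i hi
    exact hzg.bb_step haE hcE (by omega)
  · rw [hB, Nat.add_sub_cancel]
    exact hzg.bb_step haE hcE (by omega)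
  · -- distinct cosets
    intro j hj j' hj' i hi i' hi' hx
    obtain ⟨jj, ii, hii, hcase, h, hh', e⟩ := hblock i hi
    obtain ⟨jj', ii', hii', hcase', h', hh'', e'⟩ := hblock i' hi'
    have hx' : (B ^ ((j : ℤ) + jj) * P ii)⁻¹ * (B ^ ((j' : ℤ) + jj') * P ii') ∈ H := by
      rw [e, e'] at hx
      have hiN := hPN ii hii
      have hiN' := hPN ii' hii'
      have e1 : (B ^ j * (B ^ (jj : ℤ) * P ii * (P k)⁻¹ * h))⁻¹ *
          (B ^ j' * (B ^ (jj' : ℤ) * P ii' * (P k)⁻¹ * h')) =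
          h⁻¹ * (P k * ((B ^ ((j : ℤ) + jj) * P ii)⁻¹ * (B ^ ((j' : ℤ) + jj') * P ii')) *
            (P k)⁻¹) * h' := by
        rw [zpow_add, zpow_add, zpow_natCast, zpow_natCast, zpow_natCast, zpow_natCast]
        group
      rw [e1, NN_comm hc hPkN, mul_inv_cancel_right] at hx
      rw [Subgroup.mul_mem_cancel_right H hh'', Subgroup.mul_mem_cancel_left H (H.inv_mem hh')]
        at hx
      exact hx
    obtain ⟨h1, h2⟩ := kappa _ _ _ hii _ hii' hx'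
    have h3 : jj = jj' := by omega
    have h4 : i = i' := by omega
    subst h3
    refine ⟨?_, h4⟩
    obtain ⟨q, hq⟩ := h1
    have h5 : (j' : ℤ) - j = q₀ * q := by linarith
    have hq0 : q = 0 := by
      rcases lt_trichotomy q 0 with h | h | h
      · exfalso
        have : (q₀ : ℤ) * q ≤ -q₀ := by nlinarith
        omega
      · exact h
      · exfalso
        have : (q₀ : ℤ) ≤ q₀ * q := by nlinarith
        omega
    rw [hq0, mul_zero] at h5
    omega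
  · intro j hj i hi
    obtain ⟨t, ht⟩ := hblay i hi
    exact lay_mem ((hBlay.pow j).mul ht)
  · -- all cosets
    intro g hg
    obtain ⟨j, hj⟩ := lay_exists (hc := hc) hg
    have h2 := (hBlay.zpow j).inv.mul hj
    have e0 : -(j * 1) + j = 0 := by ring
    rw [e0] at h2
    unfold Lay at h2
    rw [zpow_zero, inv_one, one_mul] at h2
    obtain ⟨n, hn, h, hh', hnh⟩ := h2
    obtain ⟨i, hi, q, y, hy, hPy⟩ := hPc (P k * n) (Subgroup.mul_mem _ hPkN hn)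
    obtain ⟨hq, hhq, eq⟩ := hzB q
    -- `g = B ^ (j + m q) P i (P k)⁻¹ h'`
    obtain ⟨h', hh'', hg'⟩ : ∃ h' ∈ H, g = B ^ (j + m * q) * (P i * (P k)⁻¹) * h' := by
      refine ⟨hq⁻¹ * y * h, H.mul_mem (H.mul_mem (H.inv_mem hhq) hy.2) hh', ?_⟩
      have hiN : P i * (P k)⁻¹ ∈ NN hc :=
        Subgroup.mul_mem _ (hPN i hi) (Subgroup.inv_mem _ hPkN)
      have e1 : n = P i * (P k)⁻¹ * (z ^ q * y) := by
        rw [← hPy]
        have e2 : P i * (P k)⁻¹ * ((P i)⁻¹ * (P k * n)) = (P i * ((P k)⁻¹ * (P i)⁻¹)) * P k * n := by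
          group
        rw [e2, NN_comm hc (Subgroup.inv_mem _ hPkN) (P i)⁻¹]
        group
      have e3 : g = B ^ j * (n * h) := by rw [← hnh]; group
      rw [e3, e1, zpow_add]
      have e4 : B ^ j * B ^ ((m : ℤ) * q) * (P i * (P k)⁻¹) * (hq⁻¹ * y * h) =
          B ^ j * (B ^ ((m : ℤ) * q) * (P i * (P k)⁻¹)) * (hq⁻¹ * y * h) := by group
      rw [e4, ← NN_comm hc hiN, eq]
      have e5 : B ^ j * (P i * (P k)⁻¹ * (z ^ q * hq)) * (hq⁻¹ * y * h) =
          B ^ j * (P i * (P k)⁻¹ * (z ^ q * y) * h) := by group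
      rw [e5]
    obtain ⟨i₀, jj, hi₀, hjj⟩ : ∃ i₀ jj : ℕ, i₀ < 2 * k + 1 ∧
        (i₀ = 2 * (i - k) ∧ jj = 0 ∧ k ≤ i ∨ i₀ = 2 * i + 1 ∧ jj = 1 ∧ i < k) := by
      rcases Nat.lt_or_ge i k with h | h
      · exact ⟨2 * i + 1, 1, by omega, Or.inr ⟨rfl, rfl, h⟩⟩
      · exact ⟨2 * (i - k), 0, by omega, Or.inl ⟨rfl, rfl, h⟩⟩
    obtain ⟨jj', ii, hii, hcase, h₂, hh₂, e⟩ := hblock i₀ hi₀
    have hii' : ii = i := by omega
    have hjj' : jj' = jj := by omega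
    subst hii' hjj'
    have hpos : (0 : ℤ) < q₀ := by exact_mod_cast hq₀0
    have h3 := Int.emod_nonneg (j + m * q - jj') hpos.ne'
    have h4 := Int.emod_lt_of_pos (j + m * q - jj') hpos
    obtain ⟨j₁, hj₁⟩ : ∃ j₁ : ℕ, (j₁ : ℤ) = (j + m * q - jj') % q₀ :=
      ⟨((j + m * q - jj') % q₀).toNat, Int.toNat_of_nonneg h3⟩
    rw [← hj₁] at h4
    refine ⟨j₁, by exact_mod_cast h4, i₀, hi₀, ?_⟩
    have h5 : j + m * q = j₁ + jj' + q₀ * ((j + m * q - jj') / q₀) := by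
      have := Int.emod_add_mul_ediv (j + m * q - jj') q₀
      omega
    have hiN : P ii * (P k)⁻¹ ∈ NN hc :=
      Subgroup.mul_mem _ (hPN ii hii) (Subgroup.inv_mem _ hPkN)
    rw [e, hg', h5, zpow_add, zpow_add, zpow_natCast, zpow_natCast]
    have e6 : (B ^ j₁ * (B ^ jj' * P ii * (P k)⁻¹ * h₂))⁻¹ *
        (B ^ j₁ * B ^ jj' * B ^ ((q₀ : ℤ) * ((j + m * q - jj') / q₀)) * (P ii * (P k)⁻¹) * h') =
        h₂⁻¹ * ((P ii * (P k)⁻¹)⁻¹ * (B ^ ((q₀ : ℤ) * ((j + m * q - jj') / q₀)) *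
          (P ii * (P k)⁻¹))) * h' := by group
    rw [e6, ← NN_comm hc hiN, inv_mul_cancel_left]
    exact H.mul_mem (H.mul_mem (H.inv_mem hh₂) (hBJ _)) hh''

end Pool.Agent.U801.CT
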