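import Pool.Agent.U801.CT.Odd
import Pool.Agent.N47.CG.DualLift
import Pool.Agent.N47.CG.Quot

/-!
# End points of Hamiltonian paths in groups of class two modulo `N`
-/

set_option autoImplicit false

namespace Pool.Agent.U801.CT

open Pool.Agent.N47.CG
open scoped commutatorElement

variable {G : Type*} [Group G]

theorem coset_path [Finite G] {H : Subgroup G} {s : G} (hc : Cen H s) {E : Set G} (hE : E ⊆ H)
    (hinv : ∀ e ∈ E, e⁻¹ ∈ E) (hgen : H ≤ Subgroup.closure E) (hne : E.Nonempty) :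
    ∃ y, Lay hc (-1) y ∧ Ham (St E s) H (H ⊔ Subgroup.zpowers s : Subgroup G) 1 y := by
  obtain ⟨m, hm0, hm⟩ := ordmod (AA hc) s
  rcases Nat.even_or_odd m with h | h
  · exact even_case hc hE hinv hgen hne hm0 hm h
  · exact odd_case hc hE hinv hgen hne hm0 hm h

/-- lifting a path of cosets from a quotient -/
theorem ham_lift {N : Subgroup G} [N.Normal] {S' : Set G} {H K : Subgroup G}
    (hNH : N ≤ H) (hNK : N ≤ K) {y' : G ⧸ N}
    (h : Ham ((QuotientGroup.mk' N) '' S') (H.map (QuotientGroup.mk' N))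
      (K.map (QuotientGroup.mk' N) : Subgroup (G ⧸ N)) 1 y') :
    ∃ y, QuotientGroup.mk' N y = y' ∧ Ham S' H K 1 y := by
  obtain ⟨l, l1, l2, l3, l4, l5, l6⟩ := h
  obtain ⟨p, p1, p2, p3⟩ := lift_chain (N := N) (S := S') (e := 1) N.one_mem l 1 l1
    (by rw [l5, map_one])
  have hp0 : p ≠ [] := by
    rintro rfl
    simp at p2
  refine ⟨p.getLast hp0, ?_, p, ?_, ?_, ?_, ?_, p2, List.getLast?_eq_some_getLast hp0⟩
  · rw [← p1, List.getLast?_map, List.getLast?_eq_some_getLast hp0] at l6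
    simpa using l6
  · refine p3.imp ?_
    rintro a b ⟨t, ht, e⟩
    rw [e, one_mul]
    exact ht
  · rw [← p1, List.pairwise_map] at l2
    refine l2.imp fun {a b} hab hH => hab ?_
    rw [← map_inv, ← map_mul]
    exact ⟨_, hH, rfl⟩
  · intro g hg
    have h1 := l3 (QuotientGroup.mk' N g) (by rw [← p1]; exact List.mem_map.2 ⟨g, hg, rfl⟩)
    exact (mem_map_mk hNK g).1 h1
  · intro g hg
    obtain ⟨h, h1, h2⟩ := l4 (QuotientGroup.mk' N g) ⟨g, hg, rfl⟩
    rw [← p1] at h1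
    obtain ⟨q, hq, rfl⟩ := List.mem_map.1 h1
    refine ⟨q, hq, ?_⟩
    rw [← map_inv, ← map_mul] at h2
    exact (mem_map_mk hNH _).1 h2

theorem ends_inv {S : Set G} (hS : ∀ x ∈ S, x⁻¹ ∈ S) {H : Subgroup G} :
    ∀ e ∈ Ends S H, e⁻¹ ∈ Ends S H := by
  intro e he
  have he' : Ham S ⊥ H 1 e := he
  have h1 := (he'.rev hS).smul e⁻¹
  rw [inv_mul_cancel, mul_one] at h1
  refine h1.congr fun v => ?_
  show e⁻¹⁻¹ * v ∈ H ↔ v ∈ H
  rw [inv_inv]
  exact Subgroup.mul_mem_cancel_left _ (Ends.sub he)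

section

variable {N : Subgroup G} [hNn : N.Normal]

theorem cen_quot (hcl : ∀ a b c : G, ⁅⁅a, b⁆, c⁆ ∈ N) (H : Subgroup (G ⧸ N)) (s : G ⧸ N) :
    Cen H s := by
  intro h _ k
  obtain ⟨h, rfl⟩ := QuotientGroup.mk'_surjective N h
  obtain ⟨k, rfl⟩ := QuotientGroup.mk'_surjective N k
  obtain ⟨s, rfl⟩ := QuotientGroup.mk'_surjective N s
  have h1 : QuotientGroup.mk' N ⁅⁅h, s⁆, k⁆ = 1 := (QuotientGroup.eq_one_iff _).2 (hcl h s k)
  simp only [commutatorElement_def] at h1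
  rw [map_mul, map_mul, map_mul, map_inv, map_inv, mul_inv_eq_one, mul_inv_eq_iff_eq_mul] at h1
  simpa [cm] using h1

/-- the path through the cosets of `H` in `⟨H, s⟩` -/
theorem step [Finite G] {S : Set G} (hS : ∀ x ∈ S, x⁻¹ ∈ S)
    (hcl : ∀ a b c : G, ⁅⁅a, b⁆, c⁆ ∈ N) {H : Subgroup G} (hNH : N ≤ H)
    (hne : (Ends S H).Nonempty) (hgen : H ≤ Subgroup.closure (Ends S H) ⊔ N) (s : G) :
    ∃ y, (∃ k ∈ H, ∃ h ∈ H, s * y = cm s k * h) ∧
      Ham (St (Ends S H) s) H (H ⊔ Subgroup.zpowers s : Subgroup G) 1 y := by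
  have hc := cen_quot hcl (H.map (QuotientGroup.mk' N)) (QuotientGroup.mk' N s)
  obtain ⟨y', h1, h2⟩ := coset_path hc (E := (QuotientGroup.mk' N) '' Ends S H) (by
      rintro _ ⟨e, he, rfl⟩
      exact ⟨e, Ends.sub he, rfl⟩) (by
      rintro _ ⟨e, he, rfl⟩
      exact ⟨e⁻¹, ends_inv hS e he, map_inv _ _⟩) (by
      rintro _ ⟨h, hh, rfl⟩
      have h3 := Subgroup.mem_map_of_mem (QuotientGroup.mk' N) (hgen hh)
      rw [Subgroup.map_sup, MonoidHom.map_closure] at h3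
      have h4 : N.map (QuotientGroup.mk' N) = ⊥ := by
        rw [Subgroup.map_eq_bot_iff, QuotientGroup.ker_mk']
      rwa [h4, sup_bot_eq] at h3) (hne.image _)
  rw [show H.map (QuotientGroup.mk' N) ⊔ Subgroup.zpowers (QuotientGroup.mk' N s) =
    (H ⊔ Subgroup.zpowers s).map (QuotientGroup.mk' N) by
      rw [Subgroup.map_sup, MonoidHom.map_zpowers]] at h2
  obtain ⟨y, rfl, hy⟩ := ham_lift (S' := St (Ends S H) s) hNH (hNH.trans le_sup_left) (h2.mono (by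
    rintro _ ⟨_, ⟨e, he, rfl⟩, h | h⟩
    · exact ⟨e * s, ⟨e, he, Or.inl rfl⟩, by rw [h, map_mul]⟩
    · exact ⟨e * s⁻¹, ⟨e, he, Or.inr rfl⟩, by rw [h, map_mul, map_inv]⟩))
  refine ⟨y, ?_, hy⟩
  obtain ⟨_, ⟨_, ⟨k, hk, rfl⟩, rfl⟩, _, ⟨h, hh, rfl⟩, e⟩ := h1
  have e1 : QuotientGroup.mk' N (s * y) = QuotientGroup.mk' N (cm s k * h) := by
    rw [zpow_neg, inv_inv, zpow_one] at e
    rw [map_mul, e, map_mul]
    simp [cm]
  have h5 : (cm s k * h)⁻¹ * (s * y) ∈ N := QuotientGroup.eq.1 e1.symm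
  refine ⟨k, hk, h * ((cm s k * h)⁻¹ * (s * y)), H.mul_mem hh (hNH h5), ?_⟩
  group

theorem ends_step [Finite G] {S : Set G} (hS : ∀ x ∈ S, x⁻¹ ∈ S) {H : Subgroup G} {s : G}
    (hs : s ∈ S) {y : G} (h : Ham (St (Ends S H) s) H (H ⊔ Subgroup.zpowers s : Subgroup G) 1 y) :
    ∀ e ∈ Ends S H, y * e ∈ Ends S (H ⊔ Subgroup.zpowers s) := by
  intro e he
  refine Ham.lift ?_ ?_ h he
  · intro g hg k hk
    exact Subgroup.mul_mem _ hg (Subgroup.mem_sup_left hk)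
  · rintro _ ⟨e', he', rfl | rfl⟩
    · exact ⟨e', he', s, hs, rfl⟩
    · exact ⟨e', he', s⁻¹, hS s hs, rfl⟩

theorem path_mem {S : Set G} {K : Subgroup G} {C : Set G} {y : G} (h : Ham S K C 1 y)
    {D : Subgroup G} (hD : S ⊆ D) : y ∈ D := by
  obtain ⟨r, Y, hr, h0, h1, hstep, -, -, -⟩ := seq_of_ham h
  have key : ∀ i < r, Y i ∈ D := by
    intro i
    induction i with
    | zero => intro _; rw [h0]; exact D.one_mem
    | succ i ih =>
      intro hi
      have := D.mul_mem (ih (by omega)) (hD (hstep i hi))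
      rwa [mul_inv_cancel_left] at this
  rw [← h1]
  exact key _ (by omega)

/-- the elements `x` with `[x, z] ∈ D` -/
def Cz (hcl : ∀ a b c : G, ⁅⁅a, b⁆, c⁆ ∈ N) {D : Subgroup G} (hND : N ≤ D) (z : G) : Subgroup G where
  carrier := {x | ⁅x, z⁆ ∈ D}
  one_mem' := by simp [D.one_mem]
  mul_mem' := by
    intro x y hx hy
    simp only [Set.mem_ofPred_eq] at hx hy ⊢
    have e : ⁅x * y, z⁆ = ⁅⁅y, z⁆, x⁆⁻¹ * ⁅y, z⁆ * ⁅x, z⁆ := by
      simp only [commutatorElement_def]; group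
    rw [e]
    exact D.mul_mem (D.mul_mem (D.inv_mem (hND (hcl y z x))) hy) hx
  inv_mem' := by
    intro x hx
    simp only [Set.mem_ofPred_eq] at hx ⊢
    have e : ⁅x⁻¹, z⁆ = ⁅⁅z, x⁆, x⁻¹⁆⁻¹ * ⁅x, z⁆⁻¹ := by
      simp only [commutatorElement_def]; group
    rw [e]
    exact D.mul_mem (D.inv_mem (hND (hcl z x x⁻¹))) (D.inv_mem hx)

theorem mem_Cz (hcl : ∀ a b c : G, ⁅⁅a, b⁆, c⁆ ∈ N) {D : Subgroup G} (hND : N ≤ D) {z x : G} :
    x ∈ Cz hcl hND z ↔ ⁅x, z⁆ ∈ D := Iff.rfl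

/-- a proper subgroup containing `N` is proper modulo the commutator subgroup -/
theorem comm_le (hcl : ∀ a b c : G, ⁅⁅a, b⁆, c⁆ ∈ N) {D K : Subgroup G} (hND : N ≤ D)
    (hK : K ≤ D ⊔ ⁅K, K⁆) : ∀ a ∈ K, ∀ b ∈ K, ⁅a, b⁆ ∈ D := by
  have h0 : ∀ z : G, ⁅K, K⁆ ≤ Cz hcl hND z := by
    intro z
    rw [Subgroup.commutator_le]
    intro a _ b _
    exact hND (hcl a b z)
  have h1 : ∀ k ∈ K, ∀ d ∈ D, ⁅k, d⁆ ∈ D := by
    intro k hk d hd
    have h2 : D ⊔ ⁅K, K⁆ ≤ Cz hcl hND d := by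
      rw [sup_le_iff]
      refine ⟨fun x hx => ?_, h0 d⟩
      rw [mem_Cz, commutatorElement_def]
      exact D.mul_mem (D.mul_mem (D.mul_mem hx hd) (D.inv_mem hx)) (D.inv_mem hd)
    exact h2 (hK hk)
  intro a ha b hb
  have h2 : D ⊔ ⁅K, K⁆ ≤ Cz hcl hND b := by
    rw [sup_le_iff]
    refine ⟨fun x hx => ?_, h0 b⟩
    rw [mem_Cz, ← commutatorElement_inv]
    exact D.inv_mem (h1 b hb x hx)
  exact h2 (hK ha)

/-- a maximal subgroup -/
theorem exists_max [Finite G] (hcl : ∀ a b c : G, ⁅⁅a, b⁆, c⁆ ∈ N) {D K : Subgroup G} (hND : N ≤ D)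
    (hDK : D ≤ K) (hK : ¬ K ≤ D) : ∃ C : Subgroup G, D ≤ C ∧ C ≤ K ∧ ¬ K ≤ C ∧
      (∀ a ∈ K, ∀ b ∈ K, ⁅a, b⁆ ∈ C) ∧ ∀ e ∈ K, e ∉ C → K ≤ C ⊔ Subgroup.zpowers e := by
  classical
  have h1 : ¬ K ≤ D ⊔ ⁅K, K⁆ := by
    intro h
    have h2 := comm_le hcl hND h
    have h3 : ⁅K, K⁆ ≤ D := by
      rw [Subgroup.commutator_le]
      exact h2
    rw [sup_eq_left.2 h3] at h
    exact hK h
  have hfin : ({C : Subgroup G | D ⊔ ⁅K, K⁆ ≤ C ∧ C ≤ K ∧ ¬ K ≤ C}).Finite := Set.toFinite _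
  have hcK : ⁅K, K⁆ ≤ K := by
    rw [Subgroup.commutator_le]
    intro a ha b hb
    rw [commutatorElement_def]
    exact K.mul_mem (K.mul_mem (K.mul_mem ha hb) (K.inv_mem ha)) (K.inv_mem hb)
  obtain ⟨C, ⟨hC1, hC2, hC3⟩, hmax⟩ := hfin.exists_maximal
    ⟨D ⊔ ⁅K, K⁆, le_rfl, sup_le hDK hcK, h1⟩
  refine ⟨C, le_sup_left.trans hC1, hC2, hC3, fun a ha b hb => hC1 (Subgroup.mem_sup_right
    (Subgroup.commutator_mem_commutator ha hb)), fun e he heC => ?_⟩
  by_contra hcon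
  have h4 : C ⊔ Subgroup.zpowers e ≤ K := sup_le hC2 ((Subgroup.zpowers_le).2 he)
  have h5 := hmax ⟨hC1.trans le_sup_left, h4, hcon⟩ le_sup_left
  exact heC (h5 (Subgroup.mem_sup_right (Subgroup.mem_zpowers e)))

/-- The end points of the Hamiltonian paths generate. -/
theorem propE [Finite G] {S : Set G} (hS : ∀ x ∈ S, x⁻¹ ∈ S)
    (hcl : ∀ a b c : G, ⁅⁅a, b⁆, c⁆ ∈ N) {H₀ : Subgroup G} (hNH : N ≤ H₀)
    (hodd : ∀ h ∈ H₀, ∃ k : ℕ, Odd k ∧ h ^ k ∈ N)
    (hne : (Ends S H₀).Nonempty) (hgen : H₀ ≤ Subgroup.closure (Ends S H₀) ⊔ N) :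
    ∀ J : Finset G, (J : Set G) ⊆ S →
      (Ends S (H₀ ⊔ Subgroup.closure (J : Set G))).Nonempty ∧
      H₀ ⊔ Subgroup.closure (J : Set G) ≤
        Subgroup.closure (Ends S (H₀ ⊔ Subgroup.closure (J : Set G))) ⊔ N := by
  classical
  intro J
  induction J using Finset.strongInduction with
  | H J ih =>
    intro hJ
    rcases J.eq_empty_or_nonempty with rfl | hJne
    · rw [Finset.coe_empty, Subgroup.closure_empty, sup_bot_eq]
      exact ⟨hne, hgen⟩
    -- the paths of cosets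
    have hK : ∀ t ∈ J, H₀ ⊔ Subgroup.closure (J : Set G) =
        (H₀ ⊔ Subgroup.closure ((J.erase t : Finset G) : Set G)) ⊔ Subgroup.zpowers t := by
      intro t ht
      rw [← sup_insert, ← Finset.coe_insert, Finset.insert_erase ht]
    obtain ⟨K, hKdef⟩ : ∃ K, K = H₀ ⊔ Subgroup.closure (J : Set G) := ⟨_, rfl⟩
    rw [← hKdef] at hK ⊢
    have hH₀K : H₀ ≤ K := by rw [hKdef]; exact le_sup_left
    have hpath : ∀ t ∈ J, ∃ (H : Subgroup G) (y : G), N ≤ H ∧ K = H ⊔ Subgroup.zpowers t ∧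
        (Ends S H).Nonempty ∧ H ≤ Subgroup.closure (Ends S H) ⊔ N ∧
        (∃ k ∈ H, ∃ h ∈ H, t * y = cm t k * h) ∧
        (∀ e ∈ Ends S H, y * e ∈ Ends S K) ∧ Ham (St (Ends S H) t) H K 1 y := by
      intro t ht
      obtain ⟨h1, h2⟩ := ih (J.erase t) (Finset.erase_ssubset ht)
        (fun x hx => hJ (Finset.mem_of_mem_erase hx))
      have hNH' : N ≤ H₀ ⊔ Subgroup.closure ((J.erase t : Finset G) : Set G) :=
        hNH.trans le_sup_left
      obtain ⟨y, hy1, hy2⟩ := step hS hcl hNH' h1 h2 t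
      refine ⟨_, y, hNH', hK t ht, h1, h2, hy1, ?_, ?_⟩
      · rw [hK t ht]
        exact ends_step hS (hJ ht) hy2
      · rw [hK t ht]
        exact hy2
    constructor
    · obtain ⟨t, ht⟩ := hJne
      obtain ⟨H, y, -, -, ⟨e, he⟩, -, -, h, -⟩ := hpath t ht
      exact ⟨y * e, h e he⟩
    by_contra hcon
    have hDK : Subgroup.closure (Ends S K) ⊔ N ≤ K := by
      rw [sup_le_iff, Subgroup.closure_le]
      exact ⟨fun e he => Ends.sub he, hNH.trans hH₀K⟩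
    obtain ⟨C, hDC, hCK, hKC, hcomm, hmax⟩ := exists_max hcl le_sup_right hDK hcon
    have hNC : N ≤ C := le_sup_right.trans hDC
    have hEC : ∀ e ∈ Ends S K, e ∈ C := fun e he =>
      hDC (Subgroup.mem_sup_left (Subgroup.subset_closure he))
    have hconj : ∀ k ∈ K, ∀ c ∈ C, k * c * k⁻¹ ∈ C := by
      intro k hk c hc
      have e : k * c * k⁻¹ = ⁅k, c⁆ * c := by rw [commutatorElement_def]; group
      rw [e]
      exact C.mul_mem (hcomm k hk c (hCK hc)) hc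
    -- the end points are not in `C`
    have h1 : ∀ t ∈ J, ∃ (H : Subgroup G) (y : G), H ≤ K ∧ (∀ f ∈ Ends S H, f ∉ C) ∧ y ∉ C ∧
        (∀ f ∈ Ends S H, y * f ∈ C) ∧ (Ends S H).Nonempty ∧ Ham (St (Ends S H) t) H K 1 y := by
      intro t ht
      obtain ⟨H, y, hNH', hKH, hne', hgen', ⟨k, hk, h, hh, hty⟩, hends, hham⟩ := hpath t ht
      have hHK : H ≤ K := by rw [hKH]; exact le_sup_left
      have htK : t ∈ K := by
        rw [hKH]; exact Subgroup.mem_sup_right (Subgroup.mem_zpowers t)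
      -- not both `H ≤ C` and `y ∈ C`
      have h2 : H ≤ C → y ∈ C → False := by
        intro hHC hyC
        apply hKC
        have h3 : t * y ∈ C := by
          rw [hty]
          exact C.mul_mem (hcomm k (hHK hk) t htK) (hHC hh)
        have h4 : t ∈ C := by
          have := C.mul_mem h3 (C.inv_mem hyC)
          rwa [mul_inv_cancel_right] at this
        rw [hKH, sup_le_iff, Subgroup.zpowers_le]
        exact ⟨hHC, h4⟩
      have hyf : ∀ f ∈ Ends S H, y * f ∈ C := fun f hf => hEC _ (hends f hf)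
      obtain ⟨e, he, heC⟩ : ∃ e ∈ Ends S H, e ∉ C := by
        by_contra hcon'
        push Not at hcon'
        refine h2 (hgen'.trans (sup_le ((Subgroup.closure_le C).2 hcon') hNC)) ?_
        obtain ⟨f, hf⟩ := hne'
        have := C.mul_mem (hyf f hf) (C.inv_mem (hcon' f hf))
        rwa [mul_inv_cancel_right] at this
      have hyC : y ∉ C := by
        intro hy
        apply heC
        have := C.mul_mem (C.inv_mem hy) (hyf e he)
        rwa [inv_mul_cancel_left] at this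
      refine ⟨H, y, hHK, ?_, hyC, hyf, hne', hham⟩
      intro f hf hfC
      apply hyC
      have := C.mul_mem (hyf f hf) (C.inv_mem hfC)
      rwa [mul_inv_cancel_right] at this
    -- the index of `C` is two
    obtain ⟨t₀, ht₀⟩ := hJne
    have htwo : ∀ x ∈ K, ∀ y ∈ K, x ∉ C → y ∉ C → x * y ∈ C := by
      obtain ⟨H, y, hHK, hfC, hyC, hyf, ⟨e, he⟩, -⟩ := h1 t₀ ht₀
      have heC := hfC e he
      have heK : e ∈ K := hHK (Ends.sub he)
      have hee : e * e ∈ C := by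
        have := C.mul_mem (C.inv_mem (hyf _ (ends_inv hS e he))) (hyf e he)
        have e1 : (y * e⁻¹)⁻¹ * (y * e) = e * e := by group
        rwa [e1] at this
      obtain ⟨n, hn0, hn1, hn2⟩ := coset_union (A := K) (B := C) hconj heK
      have hn : n ≤ 2 := by
        by_contra hcon'
        exact hn1 2 (by omega) (by omega) (by rw [pow_two]; exact hee)
      have hor : ∀ v ∈ K, v ∉ C → e⁻¹ * v ∈ C := by
        intro v hv hvC
        obtain ⟨i, hi, hiv⟩ := (hn2 v).1 (hmax e heK heC hv)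
        rcases (show i = 0 ∨ i = 1 by omega) with rfl | rfl
        · exact absurd (by simpa using hiv) hvC
        · simpa using hiv
      intro x hx y hy hxC hyC
      have h2 := hor x hx hxC
      have h3 := hor y hy hyC
      have h4 := hconj e⁻¹ (K.inv_mem heK) _ h2
      have e1 : x * y = (e * e) * (e⁻¹ * (e⁻¹ * x) * e⁻¹⁻¹) * (e⁻¹ * y) := by group
      rw [e1]
      exact C.mul_mem (C.mul_mem hee h4) h3
    -- all of `J` is in `C`
    have h2 : ∀ t ∈ J, t ∈ C := by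
      intro t ht
      obtain ⟨H, y, hHK, hfC, hyC, hyf, hne', hham⟩ := h1 t ht
      by_contra htC
      apply hyC
      have htK : t ∈ K := by
        rw [hK t ht]; exact Subgroup.mem_sup_right (Subgroup.mem_zpowers t)
      refine path_mem hham ?_
      rintro _ ⟨f, hf, rfl | rfl⟩
      · exact htwo f (hHK (Ends.sub hf)) t htK (hfC f hf) htC
      · refine htwo f (hHK (Ends.sub hf)) t⁻¹ (K.inv_mem htK) (hfC f hf) fun h => htC ?_
        simpa using C.inv_mem h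
    -- `H₀` is in `C`
    have h3 : H₀ ≤ C := by
      intro h hh
      obtain ⟨k, hk, hkN⟩ := hodd h hh
      by_contra hhC
      have hhK := hH₀K hh
      have hsq : h ^ 2 ∈ C := by rw [pow_two]; exact htwo h hhK h hhK hhC hhC
      obtain ⟨q, rfl⟩ := hk
      apply hhC
      have h4 := hNC hkN
      rw [pow_succ, pow_mul] at h4
      exact (Subgroup.mul_mem_cancel_left C (C.pow_mem hsq q)).1 h4
    apply hKC
    rw [hKdef, sup_le_iff, Subgroup.closure_le]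
    exact ⟨h3, h2⟩

end

end Pool.Agent.U801.CT
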