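import Pool.Agent.N47.CG.Final

/-!
# Hamiltonian paths of cosets as sequences
-/

set_option autoImplicit false

namespace Pool.Agent.U801.CT

open Pool.Agent.N47.CG

variable {G : Type*} [Group G]

/-- a path given by a sequence of points -/
theorem ham_of_seq {S : Set G} {K : Subgroup G} {C : Set G} (Y : ℕ → G) {r : ℕ} (hr : 0 < r)
    (hstep : ∀ i, i + 1 < r → (Y i)⁻¹ * Y (i + 1) ∈ S)
    (hinj : ∀ i j, i < j → j < r → (Y i)⁻¹ * Y j ∉ K) (hC : ∀ i < r, Y i ∈ C)
    (hcov : ∀ g ∈ C, ∃ i < r, (Y i)⁻¹ * g ∈ K) : Ham S K C (Y 0) (Y (r - 1)) := by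
  refine ⟨(List.range r).map Y, ?_, ?_, ?_, ?_, ?_, ?_⟩
  · rw [List.isChain_map, List.isChain_iff_getElem]
    intro i hi
    rw [List.length_range] at hi
    simp only [List.getElem_range]
    exact hstep i hi
  · rw [List.pairwise_map]
    refine List.Pairwise.imp_of_mem ?_ (List.pairwise_lt_range (n := r))
    intro i j _ hj hij
    exact hinj i j hij (List.mem_range.1 hj)
  · intro g hg
    obtain ⟨i, hi, rfl⟩ := List.mem_map.1 hg
    exact hC i (List.mem_range.1 hi)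
  · intro g hg
    obtain ⟨i, hi, h⟩ := hcov g hg
    exact ⟨Y i, List.mem_map.2 ⟨i, List.mem_range.2 hi, rfl⟩, h⟩
  · rw [List.head?_map, List.head?_range, if_neg hr.ne']
    rfl
  · rw [List.getLast?_map, List.getLast?_range, if_neg hr.ne']
    rfl

/-- the sequence of points of a path -/
theorem seq_of_ham {S : Set G} {K : Subgroup G} {C : Set G} {x y : G} (h : Ham S K C x y) :
    ∃ (r : ℕ) (Y : ℕ → G), 0 < r ∧ Y 0 = x ∧ Y (r - 1) = y ∧
      (∀ i, i + 1 < r → (Y i)⁻¹ * Y (i + 1) ∈ S) ∧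
      (∀ i j, i < j → j < r → (Y i)⁻¹ * Y j ∉ K) ∧ (∀ i < r, Y i ∈ C) ∧
      (∀ g ∈ C, ∃ i < r, (Y i)⁻¹ * g ∈ K) := by
  obtain ⟨p, p1, p2, p3, p4, p5, p6⟩ := h
  have hp0 : p ≠ [] := by
    rintro rfl
    simp at p5
  have hr : 0 < p.length := List.length_pos_iff.2 hp0
  have hget : ∀ i (hi : i < p.length), p.getD i 1 = p[i] := fun i hi => List.getD_eq_getElem _ _ hi
  refine ⟨p.length, fun i => p.getD i 1, hr, ?_, ?_, ?_, ?_, ?_, ?_⟩
  · simp only []
    rw [hget 0 hr]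
    rw [List.head?_eq_getElem?, List.getElem?_eq_getElem hr] at p5
    simpa using p5
  · simp only []
    rw [hget _ (by omega)]
    rw [List.getLast?_eq_getElem?, List.getElem?_eq_getElem (by omega)] at p6
    simpa using p6
  · intro i hi
    simp only []
    rw [hget i (by omega), hget (i + 1) hi]
    exact List.isChain_iff_getElem.1 p1 i hi
  · intro i j hij hj
    simp only []
    rw [hget i (by omega), hget j hj]
    exact List.pairwise_iff_getElem.1 p2 i j (by omega) hj hij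
  · intro i hi
    simp only []
    rw [hget i hi]
    exact p3 _ (List.getElem_mem hi)
  · intro g hg
    obtain ⟨h, h1, h2⟩ := p4 g hg
    obtain ⟨i, hi, rfl⟩ := List.getElem_of_mem h1
    refine ⟨i, hi, ?_⟩
    simp only []
    rw [hget i hi]
    exact h2

/-- repeating a block -/
theorem ham_of_blocks {S : Set G} {K : Subgroup G} {C : Set G} (b : ℕ → G) (B : G) {ρ J : ℕ}
    (hρ : 0 < ρ) (hJ : 0 < J) (hb0 : b 0 = 1) (hstep : ∀ i, i + 1 < ρ → (b i)⁻¹ * b (i + 1) ∈ S)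
    (hlast : (b (ρ - 1))⁻¹ * B ∈ S)
    (hinj : ∀ j < J, ∀ j' < J, ∀ i < ρ, ∀ i' < ρ, (B ^ j * b i)⁻¹ * (B ^ j' * b i') ∈ K →
      j = j' ∧ i = i')
    (hC : ∀ j < J, ∀ i < ρ, B ^ j * b i ∈ C)
    (hcov : ∀ g ∈ C, ∃ j < J, ∃ i < ρ, (B ^ j * b i)⁻¹ * g ∈ K) :
    Ham S K C 1 (B ^ (J - 1) * b (ρ - 1)) := by
  have hlt : ∀ n, n < J * ρ → n / ρ < J := fun n hn => (Nat.div_lt_iff_lt_mul hρ).2 hn
  have h := ham_of_seq (S := S) (K := K) (C := C) (fun n => B ^ (n / ρ) * b (n % ρ))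
    (r := J * ρ) (Nat.mul_pos hJ hρ) ?_ ?_ ?_ ?_
  · simp only [Nat.zero_div, pow_zero, Nat.zero_mod, one_mul] at h
    have hn : J * ρ - 1 = (J - 1) * ρ + (ρ - 1) := by
      obtain ⟨j, rfl⟩ : ∃ j, J = j + 1 := ⟨J - 1, by omega⟩
      rw [Nat.succ_mul, Nat.add_sub_cancel]
      omega
    have h1 : (J * ρ - 1) / ρ = J - 1 := by
      rw [hn, Nat.div_eq_of_lt_le]
      · omega
      · rw [Nat.succ_mul]; omega
    have h2 : (J * ρ - 1) % ρ = ρ - 1 := by
      rw [hn, Nat.mul_comm, Nat.mul_add_mod]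
      exact Nat.mod_eq_of_lt (by omega)
    rw [hb0, h1, h2] at h
    exact h
  · intro n hn
    have hmod := Nat.mod_lt n hρ
    have hdm := Nat.div_add_mod n ρ
    by_cases hc : n % ρ + 1 < ρ
    · have h1 : (n + 1) / ρ = n / ρ := by
        rw [Nat.div_eq_of_lt_le]
        · rw [Nat.mul_comm]; omega
        · rw [Nat.succ_mul, Nat.mul_comm]; omega
      have h2 : (n + 1) % ρ = n % ρ + 1 := by
        have := Nat.div_add_mod (n + 1) ρ
        rw [h1] at this
        omega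
      rw [h1, h2, mul_inv_rev, mul_assoc, inv_mul_cancel_left]
      exact hstep _ hc
    · have h1 : (n + 1) / ρ = n / ρ + 1 := by
        rw [Nat.div_eq_of_lt_le]
        · rw [Nat.succ_mul, Nat.mul_comm]; omega
        · rw [Nat.succ_mul, Nat.succ_mul, Nat.mul_comm]; omega
      have h2 : (n + 1) % ρ = 0 := by
        have := Nat.div_add_mod (n + 1) ρ
        rw [h1, Nat.mul_add] at this
        omega
      have h3 : n % ρ = ρ - 1 := by omega
      rw [h1, h2, h3, hb0, mul_one, pow_succ, mul_inv_rev, mul_assoc, inv_mul_cancel_left]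
      exact hlast
  · intro i j hij hj hK
    obtain ⟨h1, h2⟩ := hinj _ (hlt i (by omega)) _ (hlt j hj) _ (Nat.mod_lt i hρ) _
      (Nat.mod_lt j hρ) hK
    have h3 := Nat.div_add_mod i ρ
    have h4 := Nat.div_add_mod j ρ
    rw [h1, h2] at h3
    omega
  · intro i hi
    exact hC _ (hlt i hi) _ (Nat.mod_lt i hρ)
  · intro g hg
    obtain ⟨j, hj, i, hi, h⟩ := hcov g hg
    refine ⟨j * ρ + i, ?_, ?_⟩
    · have : (j + 1) * ρ ≤ J * ρ := Nat.mul_le_mul_right ρ hj
      rw [Nat.succ_mul] at this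
      omega
    · have h1 : (j * ρ + i) / ρ = j := by
        rw [Nat.div_eq_of_lt_le]
        · omega
        · rw [Nat.succ_mul]; omega
      have h2 : (j * ρ + i) % ρ = i := by
        rw [Nat.mul_comm, Nat.mul_add_mod]
        exact Nat.mod_eq_of_lt hi
      rw [h1, h2]
      exact h

end Pool.Agent.U801.CT
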