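import Pool.Agent.U801.CT.Seq

/-!
# Walks between two layers

`H` is a subgroup and `s` an element such that all commutators `[h, s]`, `h ∈ H`, are central.
-/

set_option autoImplicit false

namespace Pool.Agent.U801.CT

open Pool.Agent.N47.CG

variable {G : Type*} [Group G]

/-- the commutator `h s h⁻¹ s⁻¹` -/
def cm (s h : G) : G := h * s * h⁻¹ * s⁻¹

/-- all commutators `[h, s]`, `h ∈ H`, are central -/
def Cen (H : Subgroup G) (s : G) : Prop := ∀ h ∈ H, ∀ k : G, cm s h * k = k * cm s h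

variable {H : Subgroup G} {s : G}

theorem cm_one : cm s 1 = 1 := by simp [cm]

theorem cm_mul (hc : Cen H s) {h k : G} (_ : h ∈ H) (hk : k ∈ H) :
    cm s (h * k) = cm s h * cm s k := by
  have e : cm s (h * k) = (h * cm s k) * (s * h⁻¹ * s⁻¹) := by simp only [cm]; group
  rw [e, ← hc k hk h, ← hc k hk (cm s h), mul_assoc]
  simp only [cm]
  group

theorem cm_inv (hc : Cen H s) {h : G} (hh : h ∈ H) : cm s h⁻¹ = (cm s h)⁻¹ := by
  have h1 := cm_mul hc hh (H.inv_mem hh)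
  rw [mul_inv_cancel, cm_one] at h1
  exact (inv_eq_of_mul_eq_one_right h1.symm).symm

/-- the subgroup of the commutators -/
def NN (hc : Cen H s) : Subgroup G where
  carrier := {n | ∃ h ∈ H, n = cm s h}
  one_mem' := ⟨1, H.one_mem, cm_one.symm⟩
  mul_mem' := by
    rintro _ _ ⟨h, hh, rfl⟩ ⟨k, hk, rfl⟩
    exact ⟨h * k, H.mul_mem hh hk, (cm_mul hc hh hk).symm⟩
  inv_mem' := by
    rintro _ ⟨h, hh, rfl⟩
    exact ⟨h⁻¹, H.inv_mem hh, (cm_inv hc hh).symm⟩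

theorem mem_NN (hc : Cen H s) {n : G} : n ∈ NN hc ↔ ∃ h ∈ H, n = cm s h := Iff.rfl

theorem cm_mem (hc : Cen H s) {h : G} (hh : h ∈ H) : cm s h ∈ NN hc := ⟨h, hh, rfl⟩

theorem NN_comm (hc : Cen H s) {n : G} (hn : n ∈ NN hc) (k : G) : n * k = k * n := by
  obtain ⟨h, hh, rfl⟩ := hn
  exact hc h hh k

theorem hs_eq (h : G) : h * s = cm s h * (s * h) := by simp only [cm]; group

theorem sh_eq (h : G) : s * h * s⁻¹ = (cm s h)⁻¹ * h := by simp only [cm]; group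

theorem sh_eq' (hc : Cen H s) {h : G} (hh : h ∈ H) : s⁻¹ * h * s = cm s h * h := by
  have h1 := hc h hh (s⁻¹)
  have e : s⁻¹ * h * s = (s⁻¹ * cm s h) * (s * h) := by rw [mul_assoc, hs_eq h, mul_assoc]
  rw [e, ← h1]
  group

/-- the subgroup `N H` -/
def AA (hc : Cen H s) : Subgroup G where
  carrier := {g | ∃ n ∈ NN hc, ∃ h ∈ H, g = n * h}
  one_mem' := ⟨1, Subgroup.one_mem _, 1, H.one_mem, by simp⟩
  mul_mem' := by
    rintro _ _ ⟨n, hn, h, hh, rfl⟩ ⟨n', hn', h', hh', rfl⟩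
    refine ⟨n * n', Subgroup.mul_mem _ hn hn', h * h', H.mul_mem hh hh', ?_⟩
    rw [mul_assoc, mul_assoc, ← mul_assoc h, ← NN_comm hc hn' h, mul_assoc]
  inv_mem' := by
    rintro _ ⟨n, hn, h, hh, rfl⟩
    refine ⟨n⁻¹, Subgroup.inv_mem _ hn, h⁻¹, H.inv_mem hh, ?_⟩
    rw [mul_inv_rev, NN_comm hc (Subgroup.inv_mem _ hn)]

theorem mem_AA (hc : Cen H s) {g : G} : g ∈ AA hc ↔ ∃ n ∈ NN hc, ∃ h ∈ H, g = n * h := Iff.rfl

theorem H_le_AA (hc : Cen H s) : H ≤ AA hc := fun h hh =>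
  ⟨1, Subgroup.one_mem _, h, hh, (one_mul h).symm⟩

theorem NN_le_AA (hc : Cen H s) : NN hc ≤ AA hc := fun n hn =>
  ⟨n, hn, 1, H.one_mem, (mul_one n).symm⟩

theorem AA_conj (hc : Cen H s) (j : ℤ) : ∀ x ∈ AA hc, s ^ j * x * (s ^ j)⁻¹ ∈ AA hc := by
  have h1 : ∀ x ∈ AA hc, s * x * s⁻¹ ∈ AA hc := by
    rintro _ ⟨n, hn, h, hh, rfl⟩
    have e : s * (n * h) * s⁻¹ = n * (s * h * s⁻¹) := by
      rw [← mul_assoc, ← NN_comm hc hn s]; group
    rw [e, sh_eq]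
    exact Subgroup.mul_mem _ (NN_le_AA hc hn) (Subgroup.mul_mem _
      (Subgroup.inv_mem _ (NN_le_AA hc (cm_mem hc hh))) (H_le_AA hc hh))
  have h2 : ∀ x ∈ AA hc, s⁻¹ * x * s ∈ AA hc := by
    rintro _ ⟨n, hn, h, hh, rfl⟩
    have e : s⁻¹ * (n * h) * s = n * (s⁻¹ * h * s) := by
      rw [← mul_assoc, ← NN_comm hc hn s⁻¹]; group
    rw [e, sh_eq' hc hh]
    exact Subgroup.mul_mem _ (NN_le_AA hc hn) (Subgroup.mul_mem _
      (NN_le_AA hc (cm_mem hc hh)) (H_le_AA hc hh))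
  induction j with
  | zero => intro x hx; simpa using hx
  | succ i ih =>
    intro x hx
    have e : s ^ ((i : ℤ) + 1) * x * (s ^ ((i : ℤ) + 1))⁻¹ =
        s ^ (i : ℤ) * (s * x * s⁻¹) * (s ^ (i : ℤ))⁻¹ := by
      rw [zpow_add_one]; group
    rw [e]
    exact ih _ (h1 x hx)
  | pred i ih =>
    intro x hx
    have e : s ^ (-(i : ℤ) - 1) * x * (s ^ (-(i : ℤ) - 1))⁻¹ =
        s ^ (-(i : ℤ)) * (s⁻¹ * x * s) * (s ^ (-(i : ℤ)))⁻¹ := by
      rw [zpow_sub_one]; group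
    rw [e]
    exact ih _ (h2 x hx)

/-- `g` is in the layer `s ^ j N H` -/
def Lay (hc : Cen H s) (j : ℤ) (g : G) : Prop := (s ^ j)⁻¹ * g ∈ AA hc

theorem Lay.mul {hc : Cen H s} {i j : ℤ} {g g' : G} (h : Lay hc i g) (h' : Lay hc j g') :
    Lay hc (i + j) (g * g') := by
  have e : (s ^ (i + j))⁻¹ * (g * g') =
      (s ^ (-j) * ((s ^ i)⁻¹ * g) * (s ^ (-j))⁻¹) * ((s ^ j)⁻¹ * g') := by
    rw [zpow_add, zpow_neg]; group
  unfold Lay
  rw [e]
  exact Subgroup.mul_mem _ (AA_conj hc (-j) _ h) h'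

theorem Lay.inv {hc : Cen H s} {i : ℤ} {g : G} (h : Lay hc i g) : Lay hc (-i) g⁻¹ := by
  have e : (s ^ (-i))⁻¹ * g⁻¹ = (s ^ i * ((s ^ i)⁻¹ * g) * (s ^ i)⁻¹)⁻¹ := by
    rw [zpow_neg]; group
  unfold Lay
  rw [e]
  exact Subgroup.inv_mem _ (AA_conj hc i _ h)

theorem Lay.pow {hc : Cen H s} {i : ℤ} {g : G} (h : Lay hc i g) (n : ℕ) :
    Lay hc (n * i) (g ^ n) := by
  induction n with
  | zero => simp [Lay, Subgroup.one_mem]
  | succ n ih =>
    rw [pow_succ]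
    have := ih.mul h
    have e : ((n : ℤ) * i + i) = ((n + 1 : ℕ) : ℤ) * i := by push_cast; ring
    rwa [e] at this

theorem Lay.zpow {hc : Cen H s} {i : ℤ} {g : G} (h : Lay hc i g) (n : ℤ) :
    Lay hc (n * i) (g ^ n) := by
  obtain ⟨k, rfl | rfl⟩ := n.eq_nat_or_neg
  · rw [zpow_natCast]
    exact h.pow k
  · rw [zpow_neg, zpow_natCast, neg_mul]
    exact (h.pow k).inv

theorem lay_zero {hc : Cen H s} {g : G} (h : g ∈ AA hc) : Lay hc 0 g := by
  simpa [Lay] using h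

theorem lay_one (hc : Cen H s) : Lay hc 1 s := by simp [Lay, Subgroup.one_mem]

/-- the order of `d` modulo `B` -/
theorem ordmod [Finite G] (B : Subgroup G) (d : G) :
    ∃ m : ℕ, 0 < m ∧ ∀ k : ℤ, d ^ k ∈ B ↔ (m : ℤ) ∣ k := by
  classical
  have hex : ∃ n : ℕ, 0 < n ∧ d ^ n ∈ B :=
    ⟨orderOf d, orderOf_pos d, by rw [pow_orderOf_eq_one]; exact B.one_mem⟩
  obtain ⟨hn1, hn2⟩ := Nat.find_spec hex
  have hmin := fun j (hj : j < Nat.find hex) => Nat.find_min hex hj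
  set n := Nat.find hex
  have hn0 : (n : ℤ) ≠ 0 := by exact_mod_cast hn1.ne'
  have hpos : (0 : ℤ) < n := by exact_mod_cast hn1
  refine ⟨n, hn1, fun k => ⟨fun hk => ?_, ?_⟩⟩
  · have h0 := Int.emod_nonneg k hn0
    have h1 := Int.emod_lt_of_pos k hpos
    have h2 : d ^ (k % n) ∈ B := by
      have e : d ^ (k % n) = d ^ k * ((d ^ n) ^ (k / n))⁻¹ := by
        rw [← zpow_natCast, ← zpow_mul, ← zpow_neg, ← zpow_add]
        congr 1
        have := Int.emod_add_mul_ediv k n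
        omega
      rw [e]
      exact B.mul_mem hk (B.inv_mem (B.zpow_mem hn2 _))
    have h3 : ((k % n).toNat : ℤ) = k % n := Int.toNat_of_nonneg h0
    rw [← h3, zpow_natCast] at h2
    have h4 : (k % n).toNat < n := by omega
    have h5 : ¬ 0 < (k % n).toNat := fun h => hmin _ h4 ⟨h, h2⟩
    exact Int.dvd_of_emod_eq_zero (by omega)
  · rintro ⟨q, rfl⟩
    rw [zpow_mul, zpow_natCast]
    exact B.zpow_mem hn2 _

theorem lay_exists {hc : Cen H s} {g : G} (hg : g ∈ H ⊔ Subgroup.zpowers s) :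
    ∃ j : ℤ, Lay hc j g := by
  let Q : Subgroup G :=
    { carrier := {g | ∃ j : ℤ, Lay hc j g}
      one_mem' := ⟨0, lay_zero (Subgroup.one_mem _)⟩
      mul_mem' := by
        rintro _ _ ⟨i, hi⟩ ⟨j, hj⟩
        exact ⟨_, hi.mul hj⟩
      inv_mem' := by
        rintro _ ⟨i, hi⟩
        exact ⟨_, hi.inv⟩ }
  have hQ : H ⊔ Subgroup.zpowers s ≤ Q := by
    rw [sup_le_iff, Subgroup.zpowers_le]
    exact ⟨fun h hh => ⟨0, lay_zero (H_le_AA hc hh)⟩, ⟨1, lay_one hc⟩⟩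
  exact hQ hg

theorem lay_unique {hc : Cen H s} {g : G} {i j : ℤ} (hi : Lay hc i g) (hj : Lay hc j g) :
    s ^ (i - j) ∈ AA hc := by
  have h1 := hi.mul hj.inv
  rw [mul_inv_cancel] at h1
  unfold Lay at h1
  rw [mul_one] at h1
  have h2 := Subgroup.inv_mem _ h1
  rw [inv_inv] at h2
  rwa [sub_eq_add_neg]

theorem AA_le (hc : Cen H s) : AA hc ≤ H ⊔ Subgroup.zpowers s := by
  rintro _ ⟨_, ⟨k, hk, rfl⟩, h, hh, rfl⟩
  have h1 : s ∈ H ⊔ Subgroup.zpowers s := Subgroup.mem_sup_right (Subgroup.mem_zpowers s)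
  have h2 : ∀ x ∈ H, x ∈ H ⊔ Subgroup.zpowers s := fun x hx => Subgroup.mem_sup_left hx
  refine Subgroup.mul_mem _ ?_ (h2 h hh)
  exact Subgroup.mul_mem _ (Subgroup.mul_mem _ (Subgroup.mul_mem _ (h2 k hk) h1)
    (Subgroup.inv_mem _ (h2 k hk))) (Subgroup.inv_mem _ h1)

/-! ## The walk between two layers -/

/-- product of the changes of end points -/
def hh (a c : ℕ → G) : ℕ → G
  | 0 => 1
  | l + 1 => hh a c l * a l * c l

/-- points in the first layer -/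
def ev (a c Q : ℕ → G) (l : ℕ) : G := Q l * hh a c l

/-- points in the second layer -/
def od (s : G) (a c R : ℕ → G) (l : ℕ) : G := R l * s * (hh a c l * a l)

/-- data of a walk -/
structure Zig (H : Subgroup G) (s : G) (a c Q R : ℕ → G) (M : ℕ) : Prop where
  cen : Cen H s
  a_mem : ∀ l, a l ∈ H
  c_mem : ∀ l, c l ∈ H
  Q0 : Q 0 = 1
  R0 : R 0 = cm s (a 0)
  Qs : ∀ l < M, Q (l + 1) = Q l * (cm s (c l))⁻¹
  Rs : ∀ l < M, R (l + 1) = R l * cm s (a (l + 1))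

section Zig

variable {a c Q R : ℕ → G} {M : ℕ}

theorem Zig.hh_mem (hz : Zig H s a c Q R M) (l : ℕ) : hh a c l ∈ H := by
  induction l with
  | zero => exact H.one_mem
  | succ l ih => exact H.mul_mem (H.mul_mem ih (hz.a_mem l)) (hz.c_mem l)

theorem Zig.ha_mem (hz : Zig H s a c Q R M) (l : ℕ) : hh a c l * a l ∈ H :=
  H.mul_mem (hz.hh_mem l) (hz.a_mem l)

theorem Zig.Q_mem (hz : Zig H s a c Q R M) : ∀ l ≤ M, Q l ∈ NN hz.cen := by
  intro l
  induction l with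
  | zero => intro _; rw [hz.Q0]; exact Subgroup.one_mem _
  | succ l ih =>
    intro hl
    rw [hz.Qs l (by omega)]
    exact Subgroup.mul_mem _ (ih (by omega)) (Subgroup.inv_mem _ (cm_mem hz.cen (hz.c_mem l)))

theorem Zig.R_mem (hz : Zig H s a c Q R M) : ∀ l ≤ M, R l ∈ NN hz.cen := by
  intro l
  induction l with
  | zero => intro _; rw [hz.R0]; exact cm_mem hz.cen (hz.a_mem 0)
  | succ l ih =>
    intro hl
    rw [hz.Rs l (by omega)]
    exact Subgroup.mul_mem _ (ih (by omega)) (cm_mem hz.cen (hz.a_mem (l + 1)))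

theorem Zig.key (hz : Zig H s a c Q R M) : ∀ l ≤ M, cm s (hh a c l * a l) = R l * (Q l)⁻¹ := by
  intro l
  induction l with
  | zero => intro _; rw [hz.Q0, hz.R0]; simp [hh]
  | succ l ih =>
    intro hl
    have h1 := ih (by omega)
    have e : hh a c (l + 1) = (hh a c l * a l) * c l := rfl
    rw [cm_mul hz.cen (hz.hh_mem _) (hz.a_mem _), e, cm_mul hz.cen (hz.ha_mem l) (hz.c_mem l), h1,
      hz.Rs l (by omega), hz.Qs l (by omega), mul_inv_rev, inv_inv]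
    have h2 := NN_comm hz.cen (cm_mem hz.cen (hz.a_mem (l + 1))) (cm s (c l) * (Q l)⁻¹)
    have h3 := NN_comm hz.cen (cm_mem hz.cen (hz.c_mem l)) (Q l)⁻¹
    rw [mul_assoc (R l) (cm s (a (l + 1))), h2, h3]
    simp only [mul_assoc]

theorem Zig.step1 (hz : Zig H s a c Q R M) {l : ℕ} (hl : l ≤ M) :
    ev a c Q l * (a l * s) = od s a c R l := by
  have h1 := hz.key l hl
  unfold ev od
  have e : Q l * hh a c l * (a l * s) = Q l * ((hh a c l * a l) * s) := by group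
  rw [e, hs_eq (hh a c l * a l), h1]
  have h2 := NN_comm hz.cen (hz.Q_mem l hl) (R l)
  have e2 : Q l * (R l * (Q l)⁻¹ * (s * (hh a c l * a l))) =
      (Q l * R l) * (Q l)⁻¹ * (s * (hh a c l * a l)) := by group
  rw [e2, h2]
  group

theorem Zig.step2 (hz : Zig H s a c Q R M) {l : ℕ} (hl : l < M) :
    od s a c R l * (c l * s⁻¹) = ev a c Q (l + 1) := by
  have h1 := hz.key l hl.le
  have h2 : cm s (hh a c (l + 1)) = R l * (Q l)⁻¹ * cm s (c l) := by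
    have e : hh a c (l + 1) = (hh a c l * a l) * c l := rfl
    rw [e, cm_mul hz.cen (hz.ha_mem l) (hz.c_mem l), h1]
  unfold ev od
  have e : R l * s * (hh a c l * a l) * (c l * s⁻¹) = R l * (s * hh a c (l + 1) * s⁻¹) := by
    simp only [hh]; group
  rw [e, sh_eq, h2, hz.Qs l hl]
  have h3 := NN_comm hz.cen (Subgroup.inv_mem _ (cm_mem hz.cen (hz.c_mem l))) (Q l * (R l)⁻¹)
  have e3 : R l * ((R l * (Q l)⁻¹ * cm s (c l))⁻¹ * hh a c (l + 1)) =
      R l * ((cm s (c l))⁻¹ * (Q l * (R l)⁻¹)) * hh a c (l + 1) := by group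
  rw [e3, h3]
  have h4 := NN_comm hz.cen (hz.R_mem l hl.le) (Q l * (R l)⁻¹ * (cm s (c l))⁻¹)
  have h5 := NN_comm hz.cen (hz.R_mem l hl.le) ((cm s (c l))⁻¹)
  rw [h4]
  have e4 : Q l * (R l)⁻¹ * (cm s (c l))⁻¹ * R l = Q l * (R l)⁻¹ * ((cm s (c l))⁻¹ * R l) := by
    group
  rw [e4, ← h5]
  group

end Zig

/-- the points of the walk -/
def bb (s : G) (a c Q R : ℕ → G) (i : ℕ) : G :=
  if i % 2 = 0 then ev a c Q (i / 2) else od s a c R (i / 2)

/-- the steps: an element of `E` and then `s` or `s⁻¹` -/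
def St (E : Set G) (s : G) : Set G := {g | ∃ e ∈ E, g = e * s ∨ g = e * s⁻¹}

theorem bb_even {a c Q R : ℕ → G} (l : ℕ) : bb s a c Q R (2 * l) = ev a c Q l := by
  unfold bb
  rw [if_pos (by omega), Nat.mul_div_cancel_left l (by norm_num)]

theorem bb_odd {a c Q R : ℕ → G} (l : ℕ) : bb s a c Q R (2 * l + 1) = od s a c R l := by
  unfold bb
  rw [if_neg (by omega), show (2 * l + 1) / 2 = l by omega]

theorem Zig.bb_step {a c Q R : ℕ → G} {M : ℕ} (hz : Zig H s a c Q R M) {E : Set G}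
    (ha : ∀ l, a l ∈ E) (hc : ∀ l, c l ∈ E) {i : ℕ} (hi : i < 2 * M + 1) :
    (bb s a c Q R i)⁻¹ * bb s a c Q R (i + 1) ∈ St E s := by
  rcases Nat.even_or_odd' i with ⟨l, rfl | rfl⟩
  · rw [bb_even, bb_odd, ← hz.step1 (show l ≤ M by omega), inv_mul_cancel_left]
    exact ⟨a l, ha l, Or.inl rfl⟩
  · rw [bb_odd, show 2 * l + 1 + 1 = 2 * (l + 1) by ring, bb_even,
      ← hz.step2 (show l < M by omega), inv_mul_cancel_left]
    exact ⟨c l, hc l, Or.inr rfl⟩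

theorem Zig.lay_ev {a c Q R : ℕ → G} {M : ℕ} (hz : Zig H s a c Q R M) {l : ℕ} (hl : l ≤ M) :
    Lay hz.cen 0 (ev a c Q l) :=
  lay_zero ⟨_, hz.Q_mem l hl, _, hz.hh_mem l, rfl⟩

theorem Zig.lay_od {a c Q R : ℕ → G} {M : ℕ} (hz : Zig H s a c Q R M) {l : ℕ} (hl : l ≤ M) :
    Lay hz.cen 1 (od s a c R l) := by
  have h1 : Lay hz.cen 0 (R l) := lay_zero (NN_le_AA _ (hz.R_mem l hl))
  have h2 : Lay hz.cen 0 (hh a c l * a l) := lay_zero (H_le_AA _ (hz.ha_mem l))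
  have h3 := (h1.mul (lay_one hz.cen)).mul h2
  simpa [od] using h3

end Pool.Agent.U801.CT
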